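import Pool.Agent.TH703.Cone.Exist
import Pool.Agent.TH703.Cone.Trans
import Pool.Agent.TH703.Cone.Div
import Pool.Agent.TH959.HU.Cyl
import Pool.Agent.TH914.HU.Pol

/-!
# MP_65ff7c_an: the body `‖x‖ + ‖y‖ / ε < 1` in `ℝ^(b+2) = ℂ × ℝ^b`
-/

set_option autoImplicit false

open MeasureTheory Set Metric Filter Topology
open scoped ENNReal Real

noncomputable section

namespace Run7.h717.HV

open Pool.Agent.TH304.MI Pool.Agent.TH959.MI Pool.Agent.TH959.HU
open Pool.Agent.TH703.Cone (PLE Tst S_T1 S_T2)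

/-- the space of the last `b` coordinates -/
abbrev BB (b : ℕ) := EuclideanSpace ℝ (Fin b)

/-- the last `b` coordinates -/
def yE {b : ℕ} (p : PP b) : BB b := WithLp.toLp 2 (yc p)

/-- the point with the coordinates `x`, `y` -/
def Mk {b : ℕ} (x : ℂ) (y : BB b) : PP b := Sb b (x, WithLp.ofLp y)

lemma xc_Mk {b : ℕ} (x : ℂ) (y : BB b) : xc (Mk x y) = x := rfl

lemma yE_Mk {b : ℕ} (x : ℂ) (y : BB b) : yE (Mk x y) = y := rfl

lemma Mk_eta {b : ℕ} (p : PP b) : Mk (xc p) (yE p) = p := Sb_T p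

lemma Mk_add {b : ℕ} (x x' : ℂ) (y y' : BB b) : Mk x y + Mk x' y' = Mk (x + x') (y + y') := by
  unfold Mk
  rw [← map_add]
  rfl

lemma Mk_smul {b : ℕ} (t : ℝ) (x : ℂ) (y : BB b) : t • Mk x y = Mk (t • x) (t • y) := by
  unfold Mk
  rw [← map_smul]
  rfl

lemma Mk_neg {b : ℕ} (x : ℂ) (y : BB b) : - Mk x y = Mk (-x) (-y) := by
  unfold Mk
  rw [← map_neg]
  rfl

lemma xc_add {b : ℕ} (p q : PP b) : xc (p + q) = xc p + xc q := by
  have := map_add (xL b) p q
  exact this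

lemma xc_smul {b : ℕ} (t : ℝ) (p : PP b) : xc (t • p) = t • xc p := by
  have := map_smul (xL b) t p
  exact this

lemma xc_neg {b : ℕ} (p : PP b) : xc (-p) = - xc p := by
  have := map_neg (xL b) p
  exact this

lemma yE_add {b : ℕ} (p q : PP b) : yE (p + q) = yE p + yE q := rfl

lemma yE_smul {b : ℕ} (t : ℝ) (p : PP b) : yE (t • p) = t • yE p := rfl

lemma yE_neg {b : ℕ} (p : PP b) : yE (-p) = - yE p := rfl

lemma continuous_xc {b : ℕ} : Continuous (xc : PP b → ℂ) := (xL b).continuous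

lemma continuous_yE {b : ℕ} : Continuous (yE : PP b → BB b) := by
  unfold yE
  refine (PiLp.continuous_toLp 2 _).comp ?_
  exact continuous_snd.comp (T b).continuous

lemma continuous_Mk {b : ℕ} : Continuous fun q : ℂ × BB b => Mk q.1 q.2 := by
  unfold Mk
  refine (Sb b).continuous.comp ?_
  exact continuous_fst.prodMk ((PiLp.continuous_ofLp 2 _).comp continuous_snd)

lemma norm_sq {b : ℕ} (p : PP b) : ‖p‖ ^ 2 = ‖xc p‖ ^ 2 + ‖yE p‖ ^ 2 := by
  rw [EuclideanSpace.norm_sq_eq, EuclideanSpace.norm_sq_eq, Fin.sum_univ_succ, Fin.sum_univ_succ,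
    Complex.sq_norm, Complex.normSq_apply]
  have h0 : (xc p).re = p 0 := rfl
  have h1 : (xc p).im = p 1 := rfl
  rw [h0, h1]
  simp only [Real.norm_eq_abs, sq_abs]
  rw [show (Fin.succ (0 : Fin (b + 1))) = 1 from rfl]
  have : ∀ i : Fin b, (yE p) i = p i.succ.succ := fun i => rfl
  simp only [this]
  ring

lemma norm_Mk_zero {b : ℕ} (y : BB b) : ‖Mk (0 : ℂ) y‖ = ‖y‖ := by
  have h := norm_sq (Mk (0 : ℂ) y)
  rw [xc_Mk, yE_Mk, norm_zero] at h
  have h1 : ‖Mk (0 : ℂ) y‖ ^ 2 = ‖y‖ ^ 2 := by linarith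
  exact (pow_left_inj₀ (norm_nonneg _) (norm_nonneg _) two_ne_zero).1 h1

/-- the splitting preserves the measure -/
lemma fub2 (b : ℕ) : ∃ e : PP b ≃ᵐ ℂ × BB b, (∀ p, e p = (xc p, yE p)) ∧
    (∀ q, e.symm q = Mk q.1 q.2) ∧ MeasurePreserving e volume volume := by
  obtain ⟨e, he, hm⟩ := Pool.Agent.TH73.MI.t_fub b
  refine ⟨e.trans (MeasurableEquiv.prodCongr (MeasurableEquiv.refl ℂ)
    (MeasurableEquiv.toLp 2 (Fin b → ℝ))), fun p => ?_, fun q => ?_, ?_⟩
  · change (MeasurableEquiv.prodCongr (MeasurableEquiv.refl ℂ)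
      (MeasurableEquiv.toLp 2 (Fin b → ℝ))) (e p) = _
    rw [he]
    rfl
  · rw [MeasurableEquiv.symm_apply_eq]
    change q = (MeasurableEquiv.prodCongr (MeasurableEquiv.refl ℂ)
      (MeasurableEquiv.toLp 2 (Fin b → ℝ))) (e (Mk q.1 q.2))
    rw [he]
    rfl
  · refine MeasurePreserving.trans hm ?_
    have h3 := (MeasurePreserving.id (volume : Measure ℂ)).prod
      (EuclideanSpace.volume_preserving_symm_measurableEquiv_toLp (Fin b)).symm
    exact h3

lemma lintegral_split {b : ℕ} {g : PP b → ℝ≥0∞} (hg : Measurable g) :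
    ∫⁻ p, g p = ∫⁻ x : ℂ, ∫⁻ y : BB b, g (Mk x y) := by
  obtain ⟨e, -, he', hm⟩ := fub2 b
  have h1 : ∫⁻ p, g p = ∫⁻ q, g (e.symm q) := by
    rw [← hm.lintegral_comp_emb e.measurableEmbedding]
    simp
  rw [h1, Measure.volume_eq_prod, lintegral_prod]
  · simp_rw [he']
  · exact (hg.comp e.symm.measurable).aemeasurable

/-- the fibre -/
def fib {b : ℕ} (A : Set (PP b)) (x : ℂ) : Set (BB b) := {y | Mk x y ∈ A}

lemma measurableSet_fib {b : ℕ} {A : Set (PP b)} (hA : MeasurableSet A) (x : ℂ) :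
    MeasurableSet (fib A x) := by
  have h : Continuous fun y : BB b => Mk x y := continuous_Mk.comp (Continuous.prodMk_right x)
  exact h.measurable hA

lemma measurable_fib {b : ℕ} {A : Set (PP b)} (hA : MeasurableSet A) :
    Measurable fun x : ℂ => volume (fib A x) := by
  have h : MeasurableSet ((fun q : ℂ × BB b => Mk q.1 q.2) ⁻¹' A) := continuous_Mk.measurable hA
  exact measurable_measure_prodMk_left h

lemma lintegral_fib {b : ℕ} {A : Set (PP b)} (hA : MeasurableSet A) {f : ℂ → ℝ≥0∞}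
    (hf : Measurable f) : ∫⁻ p in A, f (xc p) = ∫⁻ x : ℂ, f x * volume (fib A x) := by
  rw [← lintegral_indicator hA, lintegral_split]
  · refine lintegral_congr fun x => ?_
    have h1 : (fun y : BB b => A.indicator (fun p => f (xc p)) (Mk x y)) =
        (fib A x).indicator fun _ => f x := by
      funext y
      by_cases h : Mk x y ∈ A
      · rw [indicator_of_mem h, indicator_of_mem (show y ∈ fib A x from h), xc_Mk]
      · rw [indicator_of_notMem h, indicator_of_notMem (show y ∉ fib A x from h)]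
    rw [h1, lintegral_indicator (measurableSet_fib hA x), setLIntegral_const]
  · exact (hf.comp continuous_xc.measurable).indicator hA

lemma volume_fib {b : ℕ} {A : Set (PP b)} (hA : MeasurableSet A) :
    volume A = ∫⁻ x : ℂ, volume (fib A x) := by
  have h := lintegral_fib hA (f := fun _ => 1) measurable_const
  simpa using h

/-- the body -/
def Om (b : ℕ) (ε : ℝ) : Set (PP b) := {p | ‖xc p‖ + ‖yE p‖ / ε < 1}

/-- the volume of the central fibre -/
def vb (b : ℕ) (ε : ℝ) : ℝ := volume.real (ball (0 : BB b) ε)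

variable {b : ℕ} {ε : ℝ}

lemma isOpen_Om : IsOpen (Om b ε) :=
  isOpen_lt (continuous_xc.norm.add (continuous_yE.norm.div_const _)) continuous_const

lemma zero_mem_Om : (0 : PP b) ∈ Om b ε := by
  have h1 : xc (0 : PP b) = 0 := map_zero (xL b)
  have h2 : yE (0 : PP b) = 0 := rfl
  simp only [Om, mem_setOf_eq]
  rw [h1, h2, norm_zero, norm_zero, zero_div, add_zero]
  exact zero_lt_one

lemma neg_mem_Om {p : PP b} (hp : p ∈ Om b ε) : -p ∈ Om b ε := by
  simp only [Om, mem_setOf_eq] at hp ⊢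
  rwa [xc_neg, yE_neg, norm_neg, norm_neg]

lemma convex_Om (hε : 0 < ε) : Convex ℝ (Om b ε) := by
  intro p hp q hq s t hs ht hst
  simp only [Om, mem_setOf_eq] at hp hq ⊢
  rw [xc_add, xc_smul, xc_smul, yE_add, yE_smul, yE_smul]
  have h1 : ‖s • xc p + t • xc q‖ ≤ s * ‖xc p‖ + t * ‖xc q‖ := by
    refine (norm_add_le _ _).trans ?_
    rw [norm_smul, norm_smul, Real.norm_of_nonneg hs, Real.norm_of_nonneg ht]
  have h2 : ‖s • yE p + t • yE q‖ ≤ s * ‖yE p‖ + t * ‖yE q‖ := by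
    refine (norm_add_le _ _).trans ?_
    rw [norm_smul, norm_smul, Real.norm_of_nonneg hs, Real.norm_of_nonneg ht]
  have h3 : ‖s • yE p + t • yE q‖ / ε ≤ s * (‖yE p‖ / ε) + t * (‖yE q‖ / ε) := by
    rw [← mul_div_assoc, ← mul_div_assoc, ← add_div]
    exact div_le_div_of_nonneg_right h2 hε.le
  have h4 : s * (‖xc p‖ + ‖yE p‖ / ε) + t * (‖xc q‖ + ‖yE q‖ / ε) < 1 := by
    rcases hs.lt_or_eq with hs' | hs'
    · nlinarith
    · have : t = 1 := by linarith
      rw [← hs', this]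
      linarith
  linarith

lemma isBounded_Om (hε : 0 < ε) : Bornology.IsBounded (Om b ε) := by
  rw [isBounded_iff_forall_norm_le]
  refine ⟨1 + ε, fun p hp => ?_⟩
  simp only [Om, mem_setOf_eq] at hp
  have h1 : ‖xc p‖ ≤ 1 := by
    have : 0 ≤ ‖yE p‖ / ε := by positivity
    linarith
  have h2 : ‖yE p‖ ≤ ε := by
    have h3 : ‖yE p‖ / ε < 1 := by
      have := norm_nonneg (xc p)
      linarith
    exact ((div_lt_one hε).1 h3).le
  have h3 := norm_sq p
  have h4 : ‖p‖ ^ 2 ≤ (1 + ε) ^ 2 := by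
    rw [h3]
    have := norm_nonneg (xc p)
    have := norm_nonneg (yE p)
    nlinarith
  exact (pow_le_pow_iff_left₀ (norm_nonneg _) (by positivity) two_ne_zero).1 h4

lemma fib_Om (hε : 0 < ε) (x : ℂ) : fib (Om b ε) x = ball (0 : BB b) (ε * (1 - ‖x‖)) := by
  ext y
  simp only [fib, Om, mem_setOf_eq, xc_Mk, yE_Mk, mem_ball_zero_iff]
  rw [← lt_sub_iff_add_lt', div_lt_iff₀ hε, mul_comm]

lemma vb_pos (hε : 0 < ε) : 0 < vb b ε := by
  unfold vb
  rw [Measure.real, ENNReal.toReal_pos_iff]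
  exact ⟨measure_ball_pos _ _ hε, measure_ball_lt_top⟩

lemma ofReal_vb : ENNReal.ofReal (vb b ε) = volume (ball (0 : BB b) ε) := by
  unfold vb
  rw [Measure.real, ENNReal.ofReal_toReal measure_ball_lt_top.ne]

lemma volume_ball_mul {t : ℝ} (ht : 0 < t) :
    volume (ball (0 : BB b) (ε * t)) = ENNReal.ofReal (vb b ε * t ^ b) := by
  rw [mul_comm ε t, Measure.addHaar_ball_mul_of_pos _ _ ht, finrank_euclideanSpace,
    Fintype.card_fin, ← ofReal_vb, ← ENNReal.ofReal_mul (by positivity), mul_comm]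

lemma volume_fib_Om (hε : 0 < ε) {x : ℂ} (hx : ‖x‖ < 1) :
    volume (fib (Om b ε) x) = ENNReal.ofReal (vb b ε * (1 - ‖x‖) ^ b) := by
  rw [fib_Om hε, volume_ball_mul (by linarith)]

lemma fib_Om_empty (hε : 0 < ε) {x : ℂ} (hx : 1 ≤ ‖x‖) : fib (Om b ε) x = ∅ := by
  rw [fib_Om hε, ball_eq_empty]
  nlinarith

/-- Fubini on the body -/
lemma t7a (hε : 0 < ε) {f : ℂ → ℝ≥0∞} (hf : Measurable f) :
    ∫⁻ p in Om b ε, f (xc p) =
      ENNReal.ofReal (vb b ε) * ∫⁻ x in ball (0 : ℂ) 1, f x * ENNReal.ofReal ((1 - ‖x‖) ^ b) := by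
  rw [lintegral_fib isOpen_Om.measurableSet hf, ← lintegral_const_mul, ← lintegral_indicator
    measurableSet_ball]
  · refine lintegral_congr fun x => ?_
    by_cases hx : ‖x‖ < 1
    · rw [indicator_of_mem (by simpa using hx), volume_fib_Om hε hx,
        ENNReal.ofReal_mul (vb_pos hε).le]
      ring
    · rw [indicator_of_notMem (by simpa using hx), fib_Om_empty hε (not_lt.1 hx), measure_empty,
        mul_zero]
  · refine hf.mul ?_
    fun_prop

end Run7.h717.HV
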