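import Pool.Agent.Run7.h717.HV.Base

/-!
# MP_65ff7c_an: the fibres of sets of finite perimeter in a thin body are almost full or empty
-/

set_option autoImplicit false

open MeasureTheory Set Metric Filter Topology
open scoped ENNReal Real

noncomputable section

namespace Run7.h717.HV

open Pool.Agent.TH304.MI Pool.Agent.TH959.MI Pool.Agent.TH959.HU
open Pool.Agent.TH703.Cone (PLE Tst S_T1 S_T2)

variable {b : ℕ} {ε : ℝ}

lemma conv_aux {F G : Set (BB b)} (hF : MeasurableSet F) (hG : MeasurableSet G) {R : ℝ}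
    (hFR : F ⊆ ball 0 R) (hGR : G ⊆ ball 0 R) :
    ∫⁻ w in ball (0 : BB b) (2 * R), volume {y | y ∈ F ∧ y + w ∈ G} = volume F * volume G := by
  have hS : MeasurableSet {q : BB b × BB b | q.2 ∈ F ∧ q.2 + q.1 ∈ G} :=
    (measurable_snd hF).inter ((measurable_snd.add measurable_fst) hG)
  have h1 : ∫⁻ w in ball (0 : BB b) (2 * R), volume {y | y ∈ F ∧ y + w ∈ G} =
      ∫⁻ w : BB b, volume {y | y ∈ F ∧ y + w ∈ G} := by
    rw [← lintegral_indicator measurableSet_ball]
    refine lintegral_congr fun w => ?_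
    by_cases hw : w ∈ ball (0 : BB b) (2 * R)
    · rw [indicator_of_mem hw]
    · rw [indicator_of_notMem hw]
      have : {y : BB b | y ∈ F ∧ y + w ∈ G} = ∅ := by
        ext y
        simp only [mem_setOf_eq, mem_empty_iff_false, iff_false, not_and]
        intro hy hyw
        apply hw
        have h2 := hFR hy
        have h3 := hGR hyw
        rw [mem_ball_zero_iff] at h2 h3 ⊢
        have h4 : w = (y + w) - y := by abel
        rw [h4]
        refine (norm_sub_le _ _).trans_lt ?_
        linarith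
      rw [this, measure_empty]
  have h2 : ∫⁻ w : BB b, volume {y | y ∈ F ∧ y + w ∈ G} =
      ((volume : Measure (BB b)).prod (volume : Measure (BB b)))
        {q : BB b × BB b | q.2 ∈ F ∧ q.2 + q.1 ∈ G} := by
    rw [Measure.prod_apply hS]
    rfl
  rw [h1, h2, Measure.prod_apply_symm hS]
  have h3 : ∀ y : BB b, volume ((fun x => (x, y)) ⁻¹'
      {q : BB b × BB b | q.2 ∈ F ∧ q.2 + q.1 ∈ G}) = F.indicator (fun _ => volume G) y := by
    intro y
    by_cases hy : y ∈ F
    · rw [indicator_of_mem hy]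
      have : (fun x => (x, y)) ⁻¹' {q : BB b × BB b | q.2 ∈ F ∧ q.2 + q.1 ∈ G} =
          (fun x => y + x) ⁻¹' G := by
        ext x
        simp [hy]
      rw [this, measure_preimage_add]
    · rw [indicator_of_notMem hy]
      have : (fun x => (x, y)) ⁻¹' {q : BB b × BB b | q.2 ∈ F ∧ q.2 + q.1 ∈ G} = ∅ := by
        ext x
        simp [hy]
      rw [this, measure_empty]
  simp_rw [h3]
  rw [lintegral_indicator hF, setLIntegral_const, mul_comm]

lemma fib_subset_ball (hε : 0 < ε) {A : Set (PP b)} (hA : A ⊆ Om b ε) (x : ℂ) :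
    fib A x ⊆ ball 0 ε := by
  intro y hy
  have h1 : y ∈ fib (Om b ε) x := hA hy
  rw [fib_Om hε] at h1
  rw [mem_ball_zero_iff] at h1 ⊢
  have := norm_nonneg x
  nlinarith

theorem t5 (hε : 0 < ε) {P : ℝ} {A : Set (PP b)} (hA : MeasurableSet A) (hAΩ : A ⊆ Om b ε)
    (hP : 0 ≤ P) (h : PLE (Om b ε) A P) :
    ∫⁻ x : ℂ, volume (fib A x) * volume (fib (Om b ε \ A) x) ≤
      ENNReal.ofReal (2 ^ (b + 1) * ε * vb b ε * P) := by
  have hΩm : MeasurableSet (Om b ε) := isOpen_Om.measurableSet
  have ht1 : ∀ w : BB b, volume {p : PP b | p ∈ A ∧ p + Mk 0 w ∈ Om b ε \ A} ≤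
      ENNReal.ofReal (‖w‖ * P) := by
    intro w
    have := Pool.Agent.TH703.Cone.t1 (PP b) (Om b ε) A P (Mk 0 w) isOpen_Om (convex_Om hε)
      (isBounded_Om hε) hA hAΩ hP h
    rwa [norm_Mk_zero] at this
  have hup : ∫⁻ w in ball (0 : BB b) (2 * ε), volume {p : PP b | p ∈ A ∧ p + Mk 0 w ∈ Om b ε \ A} ≤
      ENNReal.ofReal (2 ^ (b + 1) * ε * vb b ε * P) := by
    calc ∫⁻ w in ball (0 : BB b) (2 * ε), volume {p : PP b | p ∈ A ∧ p + Mk 0 w ∈ Om b ε \ A}
        ≤ ∫⁻ _ in ball (0 : BB b) (2 * ε), ENNReal.ofReal (2 * ε * P) := by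
          refine setLIntegral_mono' measurableSet_ball fun w hw => (ht1 w).trans ?_
          refine ENNReal.ofReal_le_ofReal ?_
          rw [mem_ball_zero_iff] at hw
          exact mul_le_mul_of_nonneg_right hw.le hP
      _ = ENNReal.ofReal (2 * ε * P) * volume (ball (0 : BB b) (ε * 2)) := by
          rw [setLIntegral_const, mul_comm 2 ε]
      _ = ENNReal.ofReal (2 ^ (b + 1) * ε * vb b ε * P) := by
          rw [volume_ball_mul two_pos, ← ENNReal.ofReal_mul (by positivity)]
          congr 1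
          ring
  refine le_trans (le_of_eq ?_) hup
  have hS : MeasurableSet {q : (BB b × ℂ) × BB b | q.2 ∈ fib A q.1.2 ∧
      q.2 + q.1.1 ∈ fib (Om b ε \ A) q.1.2} := by
    have c1 : Continuous fun q : (BB b × ℂ) × BB b => Mk q.1.2 q.2 :=
      continuous_Mk.comp ((continuous_snd.comp continuous_fst).prodMk continuous_snd)
    have c2 : Continuous fun q : (BB b × ℂ) × BB b => Mk q.1.2 (q.2 + q.1.1) :=
      continuous_Mk.comp ((continuous_snd.comp continuous_fst).prodMk
        (continuous_snd.add (continuous_fst.comp continuous_fst)))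
    exact (c1.measurable hA).inter (c2.measurable (hΩm.diff hA))
  have e1 : ∀ w : BB b, volume {p : PP b | p ∈ A ∧ p + Mk 0 w ∈ Om b ε \ A} =
      ∫⁻ x : ℂ, volume {y | y ∈ fib A x ∧ y + w ∈ fib (Om b ε \ A) x} := by
    intro w
    have hm : MeasurableSet {p : PP b | p ∈ A ∧ p + Mk 0 w ∈ Om b ε \ A} :=
      hA.inter ((measurable_id.add_const _) (hΩm.diff hA))
    rw [volume_fib hm]
    refine lintegral_congr fun x => ?_
    congr 1
    ext y
    change (Mk x y ∈ A ∧ Mk x y + Mk 0 w ∈ Om b ε \ A) ↔ _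
    rw [Mk_add, add_zero]
    rfl
  simp_rw [e1]
  rw [lintegral_lintegral_swap]
  · refine lintegral_congr fun x => ?_
    rw [conv_aux (measurableSet_fib hA x) (measurableSet_fib (hΩm.diff hA) x)
      (fib_subset_ball hε hAΩ x) (fib_subset_ball hε sdiff_subset x)]
  · exact (measurable_measure_prodMk_left hS).aemeasurable

end Run7.h717.HV
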