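import Pool.Agent.Run7.h717.HV.T3

/-!
# MP_65ff7c_an: the volume of the cylinders
-/

set_option autoImplicit false

open MeasureTheory Set Metric Filter Topology
open scoped ENNReal Real

noncomputable section

namespace Run7.h717.HV

open Pool.Agent.TH304.MI Pool.Agent.TH959.MI Pool.Agent.TH959.HU Pool.Agent.TH914.HU
open Pool.Agent.TH703.Cone (PLE Tst S_T1 S_T2)

variable {b : ℕ} {ε : ℝ}

lemma hasDerivAt_U (b : ℕ) (r : ℝ) : HasDerivAt (U b) (r * (1 - r) ^ b) r := by
  have h1 : HasDerivAt (fun r : ℝ => 1 - r) (-1) r := by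
    simpa using (hasDerivAt_id r).const_sub 1
  have h2 : HasDerivAt (fun r : ℝ => (1 - r) ^ (b + 1)) ((b + 1 : ℕ) * (1 - r) ^ b * (-1)) r :=
    h1.fun_pow (b + 1)
  have h3 : HasDerivAt (fun r : ℝ => 1 + ((b : ℝ) + 1) * r) ((b : ℝ) + 1) r := by
    simpa using ((hasDerivAt_id r).const_mul ((b : ℝ) + 1)).const_add 1
  have h4 := ((h2.mul h3).const_sub 1).div_const (((b : ℝ) + 1) * (b + 2))
  refine h4.congr_deriv ?_
  have h5 : ((b : ℝ) + 1) ≠ 0 := by positivity
  have h6 : ((b : ℝ) + 2) ≠ 0 := by positivity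
  field_simp
  push_cast
  ring

lemma integral_ball_pow {r : ℝ} (hr : 0 ≤ r) :
    ∫ x in ball (0 : ℂ) r, (1 - ‖x‖) ^ b = 2 * π * U b r := by
  have hc : Continuous fun x : ℂ => (1 - ‖x‖) ^ b := by fun_prop
  rw [int_ball hc 0 hr]
  have h1 : ∀ ρ ∈ Set.uIcc 0 r, ∫ θ in (-π)..π, ρ * (1 - ‖pt 0 ρ θ‖) ^ b =
      2 * π * (ρ * (1 - ρ) ^ b) := by
    intro ρ hρ
    rw [uIcc_of_le hr] at hρ
    have hn : ∀ θ, ‖pt 0 ρ θ‖ = ρ := by
      intro θ
      unfold pt
      rw [zero_add, norm_mul, ee_norm, mul_one, Complex.norm_real, Real.norm_of_nonneg hρ.1]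
    simp_rw [hn]
    rw [intervalIntegral.integral_const, smul_eq_mul]
    ring
  rw [intervalIntegral.integral_congr h1, intervalIntegral.integral_const_mul,
    intervalIntegral.integral_eq_sub_of_hasDerivAt (fun ρ _ => hasDerivAt_U b ρ)
      (Continuous.intervalIntegrable (by fun_prop) _ _)]
  have h0 : U b 0 = 0 := by
    unfold U
    simp
  rw [h0, sub_zero]

theorem t7 (hε : 0 < ε) {r : ℝ} (hr0 : 0 ≤ r) (hr1 : r ≤ 1) :
    volume (Cy b ε r) = ENNReal.ofReal (vb b ε * (2 * π * U b r)) := by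
  have h1 := t7a (b := b) hε (f := (ball (0 : ℂ) r).indicator fun _ => 1)
    (measurable_const.indicator measurableSet_ball)
  have h2 : ∫⁻ p in Om b ε, (ball (0 : ℂ) r).indicator (fun _ => (1 : ℝ≥0∞)) (xc p) =
      volume (Cy b ε r) := by
    have h3 : ∀ p : PP b, (ball (0 : ℂ) r).indicator (fun _ => (1 : ℝ≥0∞)) (xc p) =
        (xc ⁻¹' (ball (0 : ℂ) r)).indicator (fun _ => 1) p := fun p => rfl
    simp_rw [h3]
    have hm : MeasurableSet (xc ⁻¹' (ball (0 : ℂ) r) : Set (PP b)) :=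
      continuous_xc.measurable measurableSet_ball
    rw [lintegral_indicator hm, setLIntegral_const, one_mul, Measure.restrict_apply hm]
    congr 1
    ext p
    simp only [Cy, mem_inter_iff, mem_preimage, mem_ball_zero_iff, mem_setOf_eq]
    tauto
  rw [h2] at h1
  rw [h1, ENNReal.ofReal_mul (vb_pos hε).le]
  congr 1
  have h4 : ∀ x : ℂ, (ball (0 : ℂ) r).indicator (fun _ => (1 : ℝ≥0∞)) x *
      ENNReal.ofReal ((1 - ‖x‖) ^ b) =
      (ball (0 : ℂ) r).indicator (fun x => ENNReal.ofReal ((1 - ‖x‖) ^ b)) x := by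
    intro x
    by_cases hx : x ∈ ball (0 : ℂ) r
    · rw [indicator_of_mem hx, indicator_of_mem hx, one_mul]
    · rw [indicator_of_notMem hx, indicator_of_notMem hx, zero_mul]
  simp_rw [h4]
  rw [lintegral_indicator measurableSet_ball, Measure.restrict_restrict measurableSet_ball,
    inter_eq_left.2 (ball_subset_ball hr1), ← integral_ball_pow hr0,
    ofReal_integral_eq_lintegral_ofReal]
  · have hc : Continuous fun x : ℂ => (1 - ‖x‖) ^ b := by fun_prop
    exact (hc.continuousOn.integrableOn_compact (isCompact_closedBall 0 r)).mono_set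
      ball_subset_closedBall
  · rw [EventuallyLE, ae_restrict_iff' measurableSet_ball]
    refine ae_of_all _ fun x hx => ?_
    rw [mem_ball_zero_iff] at hx
    have : 0 ≤ 1 - ‖x‖ := by linarith
    simp only [Pi.zero_apply]
    positivity

lemma U_one (b : ℕ) : U b 1 = 1 / (((b : ℝ) + 1) * (b + 2)) := by
  unfold U
  simp

theorem volume_Om (hε : 0 < ε) :
    volume (Om b ε) = ENNReal.ofReal (vb b ε * (2 * π * (1 / (((b : ℝ) + 1) * (b + 2))))) := by
  rw [← U_one, ← t7 hε zero_le_one le_rfl]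
  congr 1
  ext p
  simp only [Cy, Om, mem_setOf_eq]
  constructor
  · intro h
    refine ⟨h, ?_⟩
    have : 0 ≤ ‖yE p‖ / ε := by positivity
    linarith
  · exact fun h => h.1

end Run7.h717.HV
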