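import Pool.Agent.Run7.h717.HV.Geo
import Pool.Agent.Run7.h717.HV.T7

/-!
# MP_65ff7c_an: geometry of the cones which contain a part of the body
-/

set_option autoImplicit false

open MeasureTheory Set Metric Filter Topology
open scoped ENNReal Real ComplexConjugate Pointwise

noncomputable section

namespace Run7.h717.HV

open Pool.Agent.TH304.MI
open Pool.Agent.TH703.Cone (PLE Tst S_T1 S_T2 Wp)

variable {b : ℕ} {ε : ℝ}

/-- the good points of the plane -/
def XX (b : ℕ) (ε c : ℝ) (G : Set (PP b)) : Set ℂ :=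
  {x | c / (2 * ((b : ℝ) + 2)) ≤ ‖x‖ ∧ ‖x‖ ≤ 1 - c / (4 * (((b : ℝ) + 1) * (b + 2))) ∧
    ENNReal.ofReal (c / 4 * (vb b ε * (1 - ‖x‖) ^ b)) ≤ volume (fib (Om b ε ∩ G) x)}

lemma X_large (hε : 0 < ε) (hb : 1 ≤ b) {c : ℝ} (hc : 0 < c) (hc1 : c ≤ 1) {G : Set (PP b)}
    (hG : IsOpen G) (h : ENNReal.ofReal c * volume (Om b ε) ≤ volume (Om b ε ∩ G)) :
    ENNReal.ofReal (π * (c / (((b : ℝ) + 1) * (b + 2)))) ≤ volume (XX b ε c G) := by
  obtain ⟨M, hM⟩ : ∃ M : ℝ, M = 1 / (((b : ℝ) + 1) * (b + 2)) := ⟨_, rfl⟩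
  obtain ⟨ρ, hρ⟩ : ∃ ρ : ℝ, ρ = c / (2 * ((b : ℝ) + 2)) := ⟨_, rfl⟩
  obtain ⟨δ, hδ⟩ : ∃ δ : ℝ, δ = c / (4 * (((b : ℝ) + 1) * (b + 2))) := ⟨_, rfl⟩
  have hMp : 0 < M := by rw [hM]; positivity
  have hρp : 0 < ρ := by rw [hρ]; positivity
  have hδp : 0 < δ := by rw [hδ]; positivity
  have hδM : δ = c * M / 4 := by
    rw [hδ, hM]
    field_simp
  have hρM : ρ ^ 2 ≤ c * M / 4 := by
    rw [hρ, hM, div_pow, div_le_div_iff₀ (by positivity) (by positivity)]
    have hbn : (0 : ℝ) ≤ b := Nat.cast_nonneg b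
    rw [mul_one_div, ← sub_nonneg]
    have e : c / (((b : ℝ) + 1) * (b + 2)) * (2 * ((b : ℝ) + 2)) ^ 2 - c ^ 2 * 4 =
      4 * c / (b + 1) * ((b + 2) - c * (b + 1)) := by
      field_simp
      ring
    rw [e]
    have : c * ((b : ℝ) + 1) ≤ 1 * (b + 1) := mul_le_mul_of_nonneg_right hc1 (by positivity)
    have h5 : 0 ≤ ((b : ℝ) + 2) - c * (b + 1) := by linarith
    positivity
  have hδ1 : δ < 1 := by
    rw [hδ, div_lt_one (by positivity)]
    have hbn : (0 : ℝ) ≤ b := Nat.cast_nonneg b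
    nlinarith
  have hv := vb_pos (b := b) hε
  have hOG : MeasurableSet (Om b ε ∩ G) := (isOpen_Om.inter hG).measurableSet
  have hXm : MeasurableSet (XX b ε c G) := by
    refine MeasurableSet.inter (measurableSet_le measurable_const measurable_norm) ?_
    refine MeasurableSet.inter (measurableSet_le measurable_norm measurable_const) ?_
    exact measurableSet_le (by fun_prop) (measurable_fib hOG)
  have hXs : XX b ε c G ⊆ closedBall 0 1 := by
    intro x hx
    rw [mem_closedBall_zero_iff]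
    have := hx.2.1
    rw [← hδ] at this
    linarith
  have hXf : volume (XX b ε c G) ≠ ⊤ :=
    ((measure_mono hXs).trans_lt (isCompact_closedBall _ _).measure_lt_top).ne
  -- the pointwise bound
  have hpt : ∀ x : ℂ, volume (fib (Om b ε ∩ G) x) ≤
      (XX b ε c G).indicator (fun _ => ENNReal.ofReal (vb b ε)) x +
      ((ball (0 : ℂ) ρ).indicator (fun _ => ENNReal.ofReal (vb b ε)) x +
      ((ball (0 : ℂ) 1).indicator (fun _ => ENNReal.ofReal (vb b ε * δ)) x +
        ENNReal.ofReal (c / 4) * volume (fib (Om b ε) x))) := by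
    intro x
    have hle : volume (fib (Om b ε ∩ G) x) ≤ volume (fib (Om b ε) x) :=
      measure_mono fun y hy => hy.1
    rcases le_or_gt 1 ‖x‖ with h1 | h1
    · rw [fib_Om_empty hε h1, measure_empty] at hle
      exact hle.trans bot_le
    · have hfo := volume_fib_Om hε h1 (b := b)
      have h1' : 0 ≤ 1 - ‖x‖ := by linarith
      have hpw : (1 - ‖x‖) ^ b ≤ 1 := pow_le_one₀ h1' (by have := norm_nonneg x; linarith)
      by_cases hx1 : ‖x‖ < ρ
      · refine hle.trans (le_trans ?_ le_add_self)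
        refine le_trans ?_ le_self_add
        rw [indicator_of_mem (by rwa [mem_ball_zero_iff]), hfo]
        exact ENNReal.ofReal_le_ofReal (mul_le_of_le_one_right hv.le hpw)
      · by_cases hx2 : ‖x‖ ≤ 1 - δ
        · by_cases hx3 : ENNReal.ofReal (c / 4 * (vb b ε * (1 - ‖x‖) ^ b)) ≤
            volume (fib (Om b ε ∩ G) x)
          · refine hle.trans (le_trans ?_ le_self_add)
            rw [indicator_of_mem, hfo]
            · exact ENNReal.ofReal_le_ofReal (mul_le_of_le_one_right hv.le hpw)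
            · refine ⟨?_, ?_, hx3⟩
              · rw [← hρ]; exact not_lt.1 hx1
              · rw [← hδ]; exact hx2
          · refine (not_le.1 hx3).le.trans ?_
            rw [ENNReal.ofReal_mul (by positivity), ← hfo]
            exact (le_add_self.trans le_add_self).trans le_add_self
        · refine hle.trans (le_trans ?_ le_add_self)
          refine le_trans ?_ le_add_self
          refine le_trans ?_ le_self_add
          rw [indicator_of_mem (by rwa [mem_ball_zero_iff]), hfo]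
          refine ENNReal.ofReal_le_ofReal (mul_le_mul_of_nonneg_left ?_ hv.le)
          have hx4 : 1 - ‖x‖ ≤ δ := by
            have := not_le.1 hx2
            linarith
          calc (1 - ‖x‖) ^ b ≤ (1 - ‖x‖) ^ 1 :=
                pow_le_pow_of_le_one h1' (by have := norm_nonneg x; linarith) hb
            _ ≤ δ := by rw [pow_one]; exact hx4
  have hint : volume (Om b ε ∩ G) ≤ ENNReal.ofReal (vb b ε) * volume (XX b ε c G) +
      (ENNReal.ofReal (vb b ε) * volume (ball (0 : ℂ) ρ) +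
      (ENNReal.ofReal (vb b ε * δ) * volume (ball (0 : ℂ) 1) +
        ENNReal.ofReal (c / 4) * volume (Om b ε))) := by
    rw [volume_fib hOG]
    refine (lintegral_mono hpt).trans (le_of_eq ?_)
    rw [lintegral_add_left (measurable_const.indicator hXm),
      lintegral_add_left (measurable_const.indicator measurableSet_ball),
      lintegral_add_left (measurable_const.indicator measurableSet_ball),
      lintegral_indicator_const hXm, lintegral_indicator_const measurableSet_ball,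
      lintegral_indicator_const measurableSet_ball,
      lintegral_const_mul _ (measurable_fib isOpen_Om.measurableSet),
      ← volume_fib isOpen_Om.measurableSet]
  have hball : ∀ r : ℝ, 0 ≤ r → volume (ball (0 : ℂ) r) = ENNReal.ofReal (π * r ^ 2) := by
    intro r hr
    rw [Complex.volume_ball, mul_comm π, ENNReal.ofReal_mul (by positivity),
      ENNReal.ofReal_pow hr]
    congr 1
    rw [← NNReal.coe_real_pi, ENNReal.ofReal_coe_nnreal]
  have hfin := h.trans hint
  obtain ⟨V, hV⟩ : ∃ V : ℝ, V = volume.real (XX b ε c G) := ⟨_, rfl⟩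
  have hV0 : 0 ≤ V := by rw [hV]; exact measureReal_nonneg
  have hVe : volume (XX b ε c G) = ENNReal.ofReal V := by
    rw [hV, Measure.real, ENNReal.ofReal_toReal hXf]
  rw [hVe, hball ρ hρp.le, hball 1 zero_le_one, volume_Om hε, ← hM, ← ENNReal.ofReal_mul hc.le,
    ← ENNReal.ofReal_mul hv.le, ← ENNReal.ofReal_mul hv.le, ← ENNReal.ofReal_mul (by positivity),
    ← ENNReal.ofReal_mul (by positivity), ← ENNReal.ofReal_add (by positivity) (by positivity),
    ← ENNReal.ofReal_add (by positivity) (by positivity),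
    ← ENNReal.ofReal_add (by positivity) (by positivity),
    ENNReal.ofReal_le_ofReal_iff (by positivity)] at hfin
  rw [hVe]
  refine ENNReal.ofReal_le_ofReal ?_
  rw [show c / (((b : ℝ) + 1) * (b + 2)) = c * M by rw [hM]; ring]
  have hfin2 : vb b ε * (c * (2 * π * M)) ≤
      vb b ε * (V + (π * ρ ^ 2 + (δ * π + c / 4 * (2 * π * M)))) := by
    nlinarith [hfin]
  have hfin3 := le_of_mul_le_mul_left hfin2 hv
  have hπ := Real.pi_pos
  rw [hδM] at hfin3
  have : π * ρ ^ 2 ≤ π * (c * M / 4) := mul_le_mul_of_nonneg_left hρM hπ.le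
  nlinarith

lemma fib_subset_ball' (hε : 0 < ε) {x : ℂ} {y : BB b} (hy : Mk x y ∈ Om b ε) : ‖y‖ ≤ ε := by
  have h1 : y ∈ fib (Om b ε) x := hy
  rw [fib_Om hε, mem_ball_zero_iff] at h1
  have := norm_nonneg x
  nlinarith

lemma convex_fib {A : Set (PP b)} (hA : Convex ℝ A) (x : ℂ) : Convex ℝ (fib A x) := by
  intro y hy z hz s t hs ht hst
  have h := hA hy hz hs ht hst
  rw [Mk_smul, Mk_smul, Mk_add] at h
  have e : s • x + t • x = x := by rw [← add_smul, hst, one_smul]
  rw [e] at h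
  exact h

lemma isOpen_fib {A : Set (PP b)} (hA : IsOpen A) (x : ℂ) : IsOpen (fib A x) := by
  have h : Continuous fun y : BB b => Mk x y := continuous_Mk.comp (Continuous.prodMk_right x)
  exact hA.preimage h

lemma volume_affine (S : Set (BB b)) {a : ℝ} (ha : 0 < a) (w : BB b) :
    volume ((fun z => a • z + w) '' S) = ENNReal.ofReal (a ^ b) * volume S := by
  have h1 : (fun z => a • z + w) '' S = (fun z => z + w) '' (a • S) := by
    rw [← image_smul, image_image]
  rw [h1, image_add_right, measure_preimage_add_right, Measure.addHaar_smul,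
    finrank_euclideanSpace, Fintype.card_fin, abs_of_pos (by positivity)]

theorem t6 {c r₀ R₁ : ℝ} (hc : 0 < c) (hc1 : c ≤ 1) (hb : 31000 / c ^ 3 ≤ b) (hr₀ : 0 < r₀)
    (hR₁ : R₁ ≤ 5 / b) :
    ∃ σ η : ℝ, 0 < σ ∧ σ ≤ 1 / 2 ∧ 0 < η ∧ ∀ (ε : ℝ) (G : Set (PP b)), 0 < ε → IsOpen G →
      (∀ z ∈ G, ∀ t : ℝ, 0 < t → t • z ∈ G) → (∀ z ∈ G, ∀ w ∈ G, z + w ∈ G) →
      ENNReal.ofReal c * volume (Om b ε) ≤ volume (Om b ε ∩ G) →
      ∃ u : ℂ, ‖u‖ = 1 ∧ ∀ x ∈ Wp u σ r₀ R₁,
        ENNReal.ofReal (η * vb b ε) ≤ volume (fib (Om b ε ∩ G) x) := by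
  have hc3 : c ^ 3 ≤ 1 := pow_le_one₀ hc.le hc1
  have hb1 : (31000 : ℝ) ≤ b := by
    refine le_trans ?_ hb
    rw [le_div_iff₀ (by positivity)]
    nlinarith
  have hbc : 31000 ≤ b * c ^ 3 := by
    rwa [div_le_iff₀ (by positivity)] at hb
  have hbn : 1 ≤ b := by
    have : (1 : ℝ) ≤ (b : ℝ) := by linarith
    exact_mod_cast this
  obtain ⟨M, hM⟩ : ∃ M : ℝ, M = 1 / (((b : ℝ) + 1) * (b + 2)) := ⟨_, rfl⟩
  obtain ⟨ρ, hρ⟩ : ∃ ρ : ℝ, ρ = c / (2 * ((b : ℝ) + 2)) := ⟨_, rfl⟩
  obtain ⟨δ, hδ⟩ : ∃ δ : ℝ, δ = c / (4 * (((b : ℝ) + 1) * (b + 2))) := ⟨_, rfl⟩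
  have hMp : 0 < M := by rw [hM]; positivity
  have hM1 : M ≤ 1 := by
    rw [hM, div_le_one (by positivity)]
    nlinarith
  have hρp : 0 < ρ := by rw [hρ]; positivity
  have hδp : 0 < δ := by rw [hδ]; positivity
  have hcM : c * M ≤ 1 := by nlinarith
  refine ⟨c * M / 64, (3 / 10 * r₀ * (c / 44)) ^ b * (c / 4 * δ ^ b), by positivity, by linarith,
    by positivity, fun ε G hε hGo hGs hGa hGv => ?_⟩
  have hv := vb_pos (b := b) hε
  have hX := X_large hε hbn hc hc1 hGo hGv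
  -- two points
  obtain ⟨x₁, hx₁, x₂, hx₂, hre, him⟩ : ∃ x₁ ∈ XX b ε c G, ∃ x₂ ∈ XX b ε c G,
      0 ≤ (conj x₁ * x₂).re ∧ c * M / 8 * ‖x₁‖ * ‖x₂‖ < |(conj x₁ * x₂).im| := by
    by_contra hcon
    push Not at hcon
    have h1 := vol_quad (X := XX b ε c G) (fun x hx => by
      rw [mem_closedBall_zero_iff]
      have := hx.2.1
      rw [← hδ] at this
      linarith) (fun h0 => by
      have := h0.1
      rw [← hρ, norm_zero] at this
      linarith) (by positivity : 0 ≤ c * M / 8) hcon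
    have h2 := hX.trans h1
    rw [ENNReal.ofReal_le_ofReal_iff (by positivity), mul_comm c M, hM] at h2
    have h3 : c / (((b : ℝ) + 1) * (b + 2)) = 1 / (((b : ℝ) + 1) * (b + 2)) * c := by ring
    rw [h3, ← hM] at h2
    have h4 := Real.pi_gt_three
    have h5 : 0 < M * c := by positivity
    nlinarith
  have hn₁ : 0 < ‖x₁‖ := hρp.trans_le (by rw [hρ]; exact hx₁.1)
  have hn₂ : 0 < ‖x₂‖ := hρp.trans_le (by rw [hρ]; exact hx₂.1)
  obtain ⟨u, hu, hdec⟩ := dec (v₁ := x₁ / ‖x₁‖) (v₂ := x₂ / ‖x₂‖)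
    (by rw [norm_div, Complex.norm_real, norm_norm, div_self hn₁.ne'])
    (by rw [norm_div, Complex.norm_real, norm_norm, div_self hn₂.ne'])
    (σ := c * M / 8) (by
      have e : conj (x₁ / (‖x₁‖ : ℂ)) * (x₂ / ‖x₂‖) =
          (((‖x₁‖ * ‖x₂‖)⁻¹ : ℝ) : ℂ) * (conj x₁ * x₂) := by
        rw [map_div₀, Complex.conj_ofReal]
        push_cast
        field_simp
      rw [e, Complex.re_ofReal_mul]
      positivity) (by positivity) (by
      have e : conj (x₁ / (‖x₁‖ : ℂ)) * (x₂ / ‖x₂‖) =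
          (((‖x₁‖ * ‖x₂‖)⁻¹ : ℝ) : ℂ) * (conj x₁ * x₂) := by
        rw [map_div₀, Complex.conj_ofReal]
        push_cast
        field_simp
      rw [e, Complex.im_ofReal_mul, abs_mul, abs_of_pos (by positivity),
        le_inv_mul_iff₀ (by positivity)]
      linarith)
  refine ⟨u, hu, fun x hx => ?_⟩
  obtain ⟨hxr, hxR, hxp, hxi⟩ := hx
  obtain ⟨α, β, hxe, hα1, hα2, hβ1, hβ2⟩ := hdec x hxp (hxi.trans (le_of_eq (by ring)))
  -- points near the centre
  have hpick : ∀ x₁ ∈ XX b ε c G, ∃ y ∈ fib (Om b ε ∩ G) x₁, ‖y‖ ≤ c / 88 * ε := by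
    intro x₁ hx₁
    have hle := hx₁.2.1
    rw [← hδ] at hle
    have hlt : ‖x₁‖ < 1 := by linarith
    have hR : 0 < ε * (1 - ‖x₁‖) := mul_pos hε (by linarith)
    have hconvG : Convex ℝ G := by
      intro p hp q hq s t hs ht hst
      rcases hs.eq_or_lt with h0 | h0
      · have : t = 1 := by linarith
        rw [← h0, this, zero_smul, one_smul, zero_add]
        exact hq
      · rcases ht.eq_or_lt with h1 | h1
        · have : s = 1 := by linarith
          rw [← h1, this, zero_smul, one_smul, add_zero]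
          exact hp
        · exact hGa _ (hGs _ hp _ h0) _ (hGs _ hq _ h1)
    obtain ⟨y, hy, hyn⟩ := near (b := b) (S := fib (Om b ε ∩ G) x₁) (κ := c / 4) (τ := c / 88) hR
      (by positivity) (fun y hy => by
        have h1 : y ∈ fib (Om b ε) x₁ := hy.1
        rwa [fib_Om hε] at h1)
      (isOpen_fib (isOpen_Om.inter hGo) x₁) (convex_fib ((convex_Om hε).inter hconvG) x₁)
      (by positivity) (by
        have : (b : ℝ) * (c / 88) ^ 2 * (c / 4) = b * c ^ 3 / 30976 := by ring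
        rw [this, lt_div_iff₀ (by norm_num)]
        linarith) (by
        have h1 := hx₁.2.2
        have h2 : volume (fib (Om b ε ∩ G) x₁) ≠ ⊤ := by
          refine ((measure_mono (t := fib (Om b ε) x₁) fun y hy => hy.1).trans_lt ?_).ne
          rw [volume_fib_Om hε hlt]
          exact ENNReal.ofReal_lt_top
        have h3 : volume.real (ball (0 : BB b) (ε * (1 - ‖x₁‖))) = vb b ε * (1 - ‖x₁‖) ^ b := by
          rw [Measure.real, volume_ball_mul (by linarith), ENNReal.toReal_ofReal]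
          have h5 : 0 ≤ 1 - ‖x₁‖ := by linarith
          positivity
        rw [h3]
        exact (ENNReal.ofReal_le_iff_le_toReal h2).1 h1)
    refine ⟨y, hy, hyn.le.trans ?_⟩
    have h5 : ε * (1 - ‖x₁‖) ≤ ε :=
      mul_le_of_le_one_right hε.le (by have := norm_nonneg x₁; linarith)
    exact mul_le_mul_of_nonneg_left h5 (by positivity)
  obtain ⟨y₁, hy₁, hyn₁⟩ := hpick x₁ hx₁
  obtain ⟨y₂, hy₂, hyn₂⟩ := hpick x₂ hx₂
  have hle₁ := hx₁.2.1
  rw [← hδ] at hle₁
  have hxpos : 0 < ‖x‖ := hr₀.trans_le hxr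
  have hx5 : ‖x‖ ≤ 5 / b := hxR.trans hR₁
  have hx4 : ‖x‖ < 1 / 4 := by
    refine hx5.trans_lt ?_
    rw [div_lt_div_iff₀ (by linarith) (by norm_num)]
    linarith
  -- the coefficients
  have hcoef : ∀ (α' : ℝ) (x' : ℂ), x' ∈ XX b ε c G → α' ≤ ‖x‖ → α' / ‖x'‖ ≤ 11 / c := by
    intro α' x' hx' hα'
    have h1 : ρ ≤ ‖x'‖ := by rw [hρ]; exact hx'.1
    have h2 : 0 < ‖x'‖ := hρp.trans_le h1
    rw [div_le_iff₀ h2]
    have h3 : 5 / (b : ℝ) ≤ 11 / c * ρ := by
      rw [hρ, div_le_iff₀ (by linarith)]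
      have h4 : 11 / c * (c / (2 * ((b : ℝ) + 2))) * b = 11 / 2 * (b / (b + 2)) := by
        field_simp
      rw [h4]
      have h5 : (10 : ℝ) / 11 ≤ b / (b + 2) := by
        rw [div_le_div_iff₀ (by norm_num) (by linarith)]
        linarith
      linarith
    calc α' ≤ 5 / b := hα'.trans hx5
      _ ≤ 11 / c * ρ := h3
      _ ≤ 11 / c * ‖x'‖ := mul_le_mul_of_nonneg_left h1 (by positivity)
  obtain ⟨l₁, hl₁⟩ : ∃ l₁ : ℝ, l₁ = α / ‖x₁‖ := ⟨_, rfl⟩
  obtain ⟨l₂, hl₂⟩ : ∃ l₂ : ℝ, l₂ = β / ‖x₂‖ := ⟨_, rfl⟩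
  have hα0 : 0 < α := lt_of_lt_of_le (by positivity) hα1
  have hβ0 : 0 < β := lt_of_lt_of_le (by positivity) hβ1
  have hl₁p : 0 < l₁ := by rw [hl₁]; positivity
  have hl₂p : 0 < l₂ := by rw [hl₂]; positivity
  have hl₁u : l₁ ≤ 11 / c := by rw [hl₁]; exact hcoef α x₁ hx₁ hα2
  have hl₂u : l₂ ≤ 11 / c := by rw [hl₂]; exact hcoef β x₂ hx₂ hβ2
  have hl₁l : 3 / 10 * r₀ ≤ l₁ := by
    rw [hl₁, le_div_iff₀ hn₁]
    have h1 : ‖x₁‖ ≤ 1 := by linarith
    have h2 : 3 / 10 * r₀ * ‖x₁‖ ≤ 3 / 10 * r₀ * 1 := mul_le_mul_of_nonneg_left h1 (by positivity)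
    linarith
  have hxe' : x = l₁ • x₁ + l₂ • x₂ := by
    rw [hxe, hl₁, hl₂, Complex.real_smul, Complex.real_smul, Complex.real_smul, Complex.real_smul]
    have e1 : (‖x₁‖ : ℂ) ≠ 0 := Complex.ofReal_ne_zero.2 hn₁.ne'
    have e2 : (‖x₂‖ : ℂ) ≠ 0 := Complex.ofReal_ne_zero.2 hn₂.ne'
    push_cast
    field_simp
  -- the image of the fibre
  obtain ⟨w, hw⟩ : ∃ w : BB b, w = (l₁ * (1 - c / 44)) • y₁ + l₂ • y₂ := ⟨_, rfl⟩
  have hsub : (fun z => (l₁ * (c / 44)) • z + w) '' fib (Om b ε ∩ G) x₁ ⊆ fib (Om b ε ∩ G) x := by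
    rintro _ ⟨z, hz, rfl⟩
    have hzn : ‖z‖ ≤ ε := by
      have h1 := fib_subset_ball' hε hz.1
      exact h1
    have he : Mk x ((l₁ * (c / 44)) • z + w) =
        (l₁ * (1 - c / 44)) • Mk x₁ y₁ + ((l₁ * (c / 44)) • Mk x₁ z + l₂ • Mk x₂ y₂) := by
      rw [Mk_smul, Mk_smul, Mk_smul, Mk_add, Mk_add, hw, hxe']
      congr 1
      · rw [← add_assoc, ← add_smul]
        congr 2
        ring
      · abel
    refine ⟨?_, ?_⟩
    · change ‖x‖ + ‖(l₁ * (c / 44)) • z + w‖ / ε < 1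
      have h1 : ‖(l₁ * (c / 44)) • z + w‖ ≤ ε / 2 := by
        rw [hw]
        refine (norm_add_le _ _).trans ?_
        have h2 := norm_add_le ((l₁ * (1 - c / 44)) • y₁) (l₂ • y₂)
        rw [norm_smul, norm_smul, Real.norm_of_nonneg hl₂p.le,
          Real.norm_of_nonneg (by
            have : 0 ≤ 1 - c / 44 := by linarith
            positivity)] at h2
        rw [norm_smul, Real.norm_of_nonneg (by positivity)]
        have h3 : l₁ * (c / 44) * ‖z‖ ≤ 1 / 4 * ε := by
          refine mul_le_mul ?_ hzn (norm_nonneg _) (by norm_num)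
          have h4 : l₁ * (c / 44) ≤ 11 / c * (c / 44) :=
            mul_le_mul_of_nonneg_right hl₁u (by positivity)
          have h5 : 11 / c * (c / 44) = 1 / 4 := by
            field_simp
            norm_num
          linarith
        have h4 : l₁ * (1 - c / 44) * ‖y₁‖ ≤ 1 / 8 * ε := by
          have h5 : l₁ * (1 - c / 44) ≤ 11 / c := by
            refine le_trans ?_ hl₁u
            nlinarith
          calc l₁ * (1 - c / 44) * ‖y₁‖ ≤ 11 / c * (c / 88 * ε) :=
                mul_le_mul h5 hyn₁ (norm_nonneg _) (by positivity)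
            _ = 1 / 8 * ε := by
                field_simp
                norm_num
        have h5 : l₂ * ‖y₂‖ ≤ 1 / 8 * ε := by
          calc l₂ * ‖y₂‖ ≤ 11 / c * (c / 88 * ε) :=
                mul_le_mul hl₂u hyn₂ (norm_nonneg _) (by positivity)
            _ = 1 / 8 * ε := by
                field_simp
                norm_num
        linarith
      have h2 : ‖(l₁ * (c / 44)) • z + w‖ / ε ≤ 1 / 2 := by
        rw [div_le_iff₀ hε]
        linarith
      linarith
    · change Mk x ((l₁ * (c / 44)) • z + w) ∈ G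
      rw [he]
      have hp1 : 0 < l₁ * (1 - c / 44) := mul_pos hl₁p (by linarith)
      exact hGa _ (hGs _ hy₁.2 _ hp1) _ (hGa _ (hGs _ hz.2 _ (by positivity)) _
        (hGs _ hy₂.2 _ hl₂p))
  refine le_trans ?_ (measure_mono hsub)
  rw [volume_affine _ (by positivity)]
  refine le_trans ?_ (mul_le_mul_right hx₁.2.2 _)
  rw [← ENNReal.ofReal_mul (by positivity)]
  refine ENNReal.ofReal_le_ofReal ?_
  have h1 : (3 / 10 * r₀ * (c / 44)) ^ b ≤ (l₁ * (c / 44)) ^ b :=
    pow_le_pow_left₀ (by positivity) (mul_le_mul_of_nonneg_right hl₁l (by positivity)) b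
  have h2 : δ ^ b ≤ (1 - ‖x₁‖) ^ b := pow_le_pow_left₀ hδp.le (by linarith) b
  calc (3 / 10 * r₀ * (c / 44)) ^ b * (c / 4 * δ ^ b) * vb b ε
      = (3 / 10 * r₀ * (c / 44)) ^ b * (c / 4 * (vb b ε * δ ^ b)) := by ring
    _ ≤ (l₁ * (c / 44)) ^ b * (c / 4 * (vb b ε * (1 - ‖x₁‖) ^ b)) := by
        refine mul_le_mul h1 ?_ (by positivity) (by positivity)
        exact mul_le_mul_of_nonneg_left (mul_le_mul_of_nonneg_left h2 hv.le) (by positivity)

end Run7.h717.HV
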