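import Pool.Agent.Run7.h717.HV.T4
import Pool.Agent.Run7.h717.HV.T5
import Pool.Agent.Run7.h717.HV.T6
import Pool.Agent.TH89.MI.Tr

/-!
# MP_65ff7c_an: the end of the proof
-/

set_option autoImplicit false

open MeasureTheory Set Metric Filter Topology
open scoped ENNReal Real

noncomputable section

namespace Run7.h717.HV

open Pool.Agent.TH304.MI Pool.Agent.TH959.MI Pool.Agent.TH959.HU Pool.Agent.TH914.HU
open Pool.Agent.TH703.Cone (PLE Tst S_T1 S_T2 Wp)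

variable {b : ℕ} {ε : ℝ}

/-- extraction of the cone -/
lemma tr {c : ℝ} (hFH : FH c) (hε : 0 < ε) {A : Set (PP b)} (hA : MeasurableSet A)
    (hAΩ : A ⊆ Om b ε) (hv : volume A = volume (Om b ε) / 2) {I : ℝ} (hI : PLE (Om b ε) A I)
    (hmin : ∀ (F : Set (PP b)) (Q : ℝ), MeasurableSet F → F ⊆ Om b ε → volume F = volume A →
      PLE (Om b ε) F Q → I ≤ Q) :
    ∃ G : Set (PP b), IsOpen G ∧ (∀ z ∈ G, ∀ t : ℝ, 0 < t → t • z ∈ G) ∧
      (∀ z ∈ G, ∀ w ∈ G, z + w ∈ G) ∧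
      ENNReal.ofReal c * volume (Om b ε) ≤ volume (Om b ε ∩ G) ∧
      volume ((Om b ε ∩ G) \ A) = 0 ∧ volume ({p | p ∈ Om b ε ∧ -p ∈ G} ∩ A) = 0 := by
  obtain ⟨Γ, h1, h2, h3⟩ := hFH (b + 2) (Om b ε) A isOpen_Om ⟨0, zero_mem_Om⟩ (convex_Om hε)
    (isBounded_Om hε) (fun x hx => neg_mem_Om hx) hA hAΩ hv (by
      intro F hF hFΩ hvF φ hφ1 hφ2 hφ3 hφ4 e he
      by_contra hcon
      push Not at hcon
      have h5 : ∫ x in A, Pool.Agent.TH703.Cone.dv φ x ≤ I := hI φ ⟨hφ1, hφ2, hφ3, hφ4⟩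
      have h4 : PLE (Om b ε) F (I - e) := by
        intro ψ hψ
        have h6 : (∫ x in F, Pool.Agent.TH703.Cone.dv ψ x) + e <
            ∫ x in A, Pool.Agent.TH703.Cone.dv φ x := hcon ψ hψ.c1 hψ.cs hψ.sub hψ.le
        linarith
      have := hmin F _ hF hFΩ hvF h4
      linarith)
  refine ⟨interior (Γ : Set (PP b)), isOpen_interior,
    fun z hz t ht => Pool.Agent.TH89.MI.cone_int Γ hz ht, fun z hz w hw => ?_, ?_, ?_, ?_⟩
  · have ho : IsOpen ((fun x => z + x) '' interior (Γ : Set (PP b))) :=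
      (isOpenMap_add_left z) _ isOpen_interior
    have hs : (fun x => z + x) '' interior (Γ : Set (PP b)) ⊆ Γ := by
      rintro _ ⟨x, hx, rfl⟩
      exact Γ.add_mem (interior_subset hz) (interior_subset hx)
    exact interior_maximal hs ho ⟨w, hw, rfl⟩
  · refine h3.trans (le_of_eq (measure_congr ?_))
    have hfr : volume (frontier (Γ : Set (PP b))) = 0 := Γ.convex.addHaar_frontier volume
    exact (ae_eq_refl _).inter (interior_ae_eq_of_null_frontier hfr).symm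
  · refine measure_mono_null ?_ h1
    rintro x ⟨⟨hx1, hx2⟩, hx3⟩
    exact ⟨⟨hx1, interior_subset hx2⟩, hx3⟩
  · refine measure_mono_null ?_ h2
    rintro x ⟨⟨hx1, hx2⟩, hx3⟩
    have hx4 : -x ∈ (Γ : Set (PP b)) := interior_subset hx2
    exact ⟨⟨hx1, hx4⟩, hx3⟩

lemma half {A B : Set (PP b)} (hB : MeasurableSet B) {W : Set ℂ} (hW : MeasurableSet W)
    {m : ℝ≥0∞} (h : ∀ᵐ x : ℂ, x ∈ W → m ≤ volume (fib A x)) :
    m * volume {z | z ∈ B ∧ xc z ∈ W} ≤ ∫⁻ x : ℂ, volume (fib A x) * volume (fib B x) := by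
  have hWm : MeasurableSet {z : PP b | z ∈ B ∧ xc z ∈ W} :=
    hB.inter (continuous_xc.measurable hW)
  rw [volume_fib hWm, ← lintegral_const_mul _ (measurable_fib hWm)]
  refine lintegral_mono_ae ?_
  filter_upwards [h] with x hx
  by_cases hxW : x ∈ W
  · have h1 : fib {z : PP b | z ∈ B ∧ xc z ∈ W} x ⊆ fib B x := fun y hy => hy.1
    exact mul_le_mul' (hx hxW) (measure_mono h1)
  · have h1 : fib {z : PP b | z ∈ B ∧ xc z ∈ W} x = ∅ := by
      ext y
      simp only [mem_empty_iff_false, iff_false]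
      exact fun hy => hxW hy.2
    rw [h1, measure_empty, mul_zero]
    exact bot_le

lemma ae_fib {A : Set (PP b)} (hA : MeasurableSet A) (h : volume A = 0) :
    ∀ᵐ x : ℂ, volume (fib A x) = 0 := by
  rw [volume_fib hA, lintegral_eq_zero_iff (measurable_fib hA)] at h
  exact h

lemma measurableSet_Wp (u : ℂ) (σ r₀ R₁ : ℝ) : MeasurableSet (Wp u σ r₀ R₁) := by
  refine (measurableSet_le measurable_const measurable_norm).inter
    ((measurableSet_le measurable_norm measurable_const).inter ?_)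
  refine (measurableSet_lt measurable_const
    (Complex.measurable_re.comp (measurable_id.mul_const u))).inter ?_
  exact measurableSet_le ((Complex.measurable_im.comp (measurable_id.mul_const u)).norm)
    (measurable_norm.const_mul σ)

/-- the planar inequality, for every `ε` -/
lemma step {c : ℝ} (hc : 0 < c) (hc1 : c ≤ 1) (hb : 31000 / c ^ 3 ≤ b) (hFH : FH c)
    {r r₀ R₁ : ℝ} (hr : 0 < r) (hr1 : r < 1) (hU : U b r = 1 / (((b : ℝ) + 1) * (b + 2)) / 2)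
    (hr₀ : 0 < r₀) (h01 : r₀ ≤ R₁) (hR₁ : R₁ < 1) (hR : R₁ ≤ 5 / b) :
    ∃ C : ℝ, 0 < C ∧ ∀ ε : ℝ, 0 < ε → 2 * ∫ ρ in r₀..R₁, (1 - ρ) ^ b ≤
      2 * π * r * (1 - r) ^ b * (1 + C * ε) := by
  obtain ⟨σ, η, hσ, hσ2, hη, h6⟩ := t6 hc hc1 hb hr₀ hR
  refine ⟨3 / (σ * r₀) * (2 ^ (b + 1) / η), by positivity, fun ε hε => ?_⟩
  have hv := vb_pos (b := b) hε
  have h1r : 0 < 1 - r := by linarith
  obtain ⟨Q, hQ⟩ : ∃ Q : ℝ, Q = 2 * π * r * (1 - r) ^ b := ⟨_, rfl⟩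
  have hQ0 : 0 < Q := by rw [hQ]; positivity
  have hcy := t3 (b := b) hε hr hr1
  rw [← hQ] at hcy
  have hvol : volume (Cy b ε r) = volume (Om b ε) / 2 := by
    rw [t7 hε hr.le hr1.le, volume_Om hε, hU]
    have h2 : (2 : ℝ≥0∞) = ENNReal.ofReal 2 := by simp
    rw [h2, ← ENNReal.ofReal_div_of_pos two_pos]
    congr 1
    ring
  obtain ⟨A, I, hAm, hAΩ, hAv, hAI, hmin⟩ := Pool.Agent.TH703.Cone.exist (PP b)
    (Pool.Agent.TH703.Cone.t1 (PP b)) (Om b ε) (Cy b ε r) (vb b ε * Q) isOpen_Om (convex_Om hε)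
    zero_mem_Om (isBounded_Om hε) measurableSet_Cy Cy_sub hcy
  have hIP : I ≤ vb b ε * Q := hmin _ _ measurableSet_Cy Cy_sub rfl hcy
  have hAP : PLE (Om b ε) A (vb b ε * Q) := fun φ hφ => (hAI φ hφ).trans hIP
  obtain ⟨G, hGo, hGs, hGa, hGv, hG1, hG2⟩ := tr hFH hε hAm hAΩ (hAv.trans hvol) hAI
    (fun F Q' hF hFΩ hFv hFP => hmin F Q' hF hFΩ (hFv.trans hAv) hFP)
  obtain ⟨u, hu, hW⟩ := h6 ε G hε hGo hGs hGa hGv
  have hΩm : MeasurableSet (Om b ε) := isOpen_Om.measurableSet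
  have hΩf : volume (Om b ε) ≠ ⊤ := by
    rw [volume_Om hε]
    exact ENNReal.ofReal_ne_top
  have hP0 : 0 ≤ vb b ε * Q := by positivity
  have h5 := t5 hε hAm hAΩ hP0 hAP
  have hηv : 0 < η * vb b ε := by positivity
  -- the set over `W`
  have hW1 : ∀ᵐ x : ℂ, x ∈ Wp u σ r₀ R₁ → ENNReal.ofReal (η * vb b ε) ≤ volume (fib A x) := by
    have hm : MeasurableSet ((Om b ε ∩ G) \ A) := (hΩm.inter hGo.measurableSet).diff hAm
    filter_upwards [ae_fib hm hG1] with x hx hxW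
    refine (hW x hxW).trans ?_
    have hs : fib (Om b ε ∩ G) x ⊆ fib A x ∪ fib ((Om b ε ∩ G) \ A) x := by
      intro y hy
      by_cases h : Mk x y ∈ A
      · exact Or.inl h
      · exact Or.inr ⟨hy, h⟩
    calc volume (fib (Om b ε ∩ G) x) ≤ volume (fib A x) + volume (fib ((Om b ε ∩ G) \ A) x) :=
          (measure_mono hs).trans (measure_union_le _ _)
      _ = volume (fib A x) := by rw [hx, add_zero]
  have hW2 : ∀ᵐ x : ℂ, x ∈ {x | -x ∈ Wp u σ r₀ R₁} →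
      ENNReal.ofReal (η * vb b ε) ≤ volume (fib (Om b ε \ A) x) := by
    have hm : MeasurableSet ({p | p ∈ Om b ε ∧ -p ∈ G} ∩ A) :=
      (hΩm.inter (measurable_neg hGo.measurableSet)).inter hAm
    filter_upwards [ae_fib hm hG2] with x hx hxW
    refine (hW (-x) hxW).trans ?_
    have hneg : volume (fib (Om b ε ∩ G) (-x)) = volume (fib {p | p ∈ Om b ε ∧ -p ∈ G} x) := by
      have e : fib {p | p ∈ Om b ε ∧ -p ∈ G} x = (fun y => -y) ⁻¹' fib (Om b ε ∩ G) (-x) := by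
        ext y
        constructor
        · rintro ⟨h1, h2⟩
          refine ⟨?_, ?_⟩
          · have h3 := neg_mem_Om h1
            rwa [Mk_neg] at h3
          · rwa [Mk_neg] at h2
        · rintro ⟨h1, h2⟩
          refine ⟨?_, ?_⟩
          · have h3 := neg_mem_Om h1
            rwa [Mk_neg, neg_neg, neg_neg] at h3
          · rw [Mk_neg]
            exact h2
      rw [e]
      exact (Measure.measure_preimage_neg volume _).symm
    rw [hneg]
    have hs : fib {p | p ∈ Om b ε ∧ -p ∈ G} x ⊆ fib (Om b ε \ A) x ∪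
        fib ({p | p ∈ Om b ε ∧ -p ∈ G} ∩ A) x := by
      intro y hy
      by_cases h : Mk x y ∈ A
      · exact Or.inr ⟨hy, h⟩
      · exact Or.inl ⟨hy.1, h⟩
    calc volume (fib {p | p ∈ Om b ε ∧ -p ∈ G} x) ≤ volume (fib (Om b ε \ A) x) +
          volume (fib ({p | p ∈ Om b ε ∧ -p ∈ G} ∩ A) x) :=
          (measure_mono hs).trans (measure_union_le _ _)
      _ = volume (fib (Om b ε \ A) x) := by rw [hx, add_zero]
  have hWm := measurableSet_Wp u σ r₀ R₁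
  have hWm2 : MeasurableSet {x : ℂ | -x ∈ Wp u σ r₀ R₁} := measurable_neg hWm
  have k1 := (half (A := A) (B := Om b ε \ A) (hΩm.diff hAm) hWm hW1).trans h5
  have k2 := (half (A := Om b ε \ A) (B := A) hAm hWm2 hW2)
  have hcomm : ∫⁻ x : ℂ, volume (fib (Om b ε \ A) x) * volume (fib A x) =
      ∫⁻ x : ℂ, volume (fib A x) * volume (fib (Om b ε \ A) x) :=
    lintegral_congr fun x => mul_comm _ _
  rw [hcomm] at k2
  have k2' := k2.trans h5
  have conv : ∀ S : Set (PP b), S ⊆ Om b ε →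
      ENNReal.ofReal (η * vb b ε) * volume S ≤ ENNReal.ofReal (2 ^ (b + 1) * ε * vb b ε *
        (vb b ε * Q)) → volume.real S ≤ 2 ^ (b + 1) * ε * (vb b ε * Q) / η := by
    intro S hS hle
    have hSf : volume S ≠ ⊤ := ((measure_mono hS).trans_lt hΩf.lt_top).ne
    have hSe : volume S = ENNReal.ofReal (volume.real S) := by
      rw [Measure.real, ENNReal.ofReal_toReal hSf]
    rw [hSe, ← ENNReal.ofReal_mul hηv.le, ENNReal.ofReal_le_ofReal_iff (by positivity)] at hle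
    rw [le_div_iff₀ hη]
    have h7 : vb b ε * (volume.real S * η) ≤ vb b ε * (2 ^ (b + 1) * ε * (vb b ε * Q)) := by
      linarith
    exact le_of_mul_le_mul_left h7 hv
  have l1 := conv _ (fun z hz => hz.1.1) k1
  have l2 := conv _ (fun z hz => hAΩ hz.1) k2'
  have h4 := t4 hε hAm hAΩ hAP hu hσ (by linarith) hr₀ h01 hR₁
  have l3 : vb b ε * (2 * ∫ ρ in r₀..R₁, (1 - ρ) ^ b) ≤ vb b ε * (Q * (1 + 3 / (σ * r₀) *
      (2 ^ (b + 1) / η) * ε)) := by
    refine h4.trans ?_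
    have l4 : 3 / (2 * σ * r₀) * (volume.real {z | z ∈ Om b ε \ A ∧ xc z ∈ Wp u σ r₀ R₁} +
        volume.real {z | z ∈ A ∧ -xc z ∈ Wp u σ r₀ R₁}) ≤
        3 / (2 * σ * r₀) * (2 ^ (b + 1) * ε * (vb b ε * Q) / η +
          2 ^ (b + 1) * ε * (vb b ε * Q) / η) :=
      mul_le_mul_of_nonneg_left (add_le_add l1 l2) (by positivity)
    refine (add_le_add_right l4 _).trans (le_of_eq ?_)
    field_simp
    ring
  rw [← hQ]
  exact le_of_mul_le_mul_left l3 hv

lemma key {c : ℝ} (hc : 0 < c) (hc1 : c ≤ 1) (hb : 31000 / c ^ 3 ≤ b) (hFH : FH c)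
    {r r₀ R₁ : ℝ} (hr : 0 < r) (hr1 : r < 1) (hU : U b r = 1 / (((b : ℝ) + 1) * (b + 2)) / 2)
    (hr₀ : 0 < r₀) (h01 : r₀ ≤ R₁) (hR₁ : R₁ < 1) (hR : R₁ ≤ 5 / b) :
    2 * ∫ ρ in r₀..R₁, (1 - ρ) ^ b ≤ 2 * π * r * (1 - r) ^ b := by
  obtain ⟨C, hC, h⟩ := step hc hc1 hb hFH hr hr1 hU hr₀ h01 hR₁ hR
  obtain ⟨Q, hQ⟩ : ∃ Q : ℝ, Q = 2 * π * r * (1 - r) ^ b := ⟨_, rfl⟩
  have h1r : 0 < 1 - r := by linarith
  have hQ0 : 0 < Q := by rw [hQ]; positivity
  rw [← hQ] at h ⊢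
  refine le_of_forall_pos_le_add fun e he => ?_
  refine (h (e / (Q * C)) (by positivity)).trans (le_of_eq ?_)
  field_simp

/-! ### numerics -/

lemma exp_a : (538 : ℝ) / 100 < Real.exp (169 / 100) := by
  have h1 := Real.exp_one_gt_d9
  have h2 : (1.993 : ℝ) ≤ Real.exp (69 / 100) := by
    refine le_trans ?_ (Real.sum_le_exp_of_nonneg (by norm_num) 6)
    norm_num [Finset.sum_range_succ, Nat.factorial]
  have h3 : Real.exp (169 / 100) = Real.exp 1 * Real.exp (69 / 100) := by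
    rw [← Real.exp_add]
    norm_num
  rw [h3]
  nlinarith [Real.exp_pos 1]

lemma exp_b : Real.exp (-5) ≤ 68 / 10000 := by
  have h1 := Real.exp_one_gt_d9
  have h2 : (2.718 : ℝ) ^ 5 ≤ Real.exp 5 := by
    have h3 : Real.exp 5 = Real.exp 1 ^ 5 := by
      rw [← Real.exp_nat_mul]
      norm_num
    rw [h3]
    exact pow_le_pow_left₀ (by norm_num) (by linarith) 5
  rw [Real.exp_neg, inv_le_comm₀ (Real.exp_pos 5) (by norm_num)]
  refine le_trans ?_ h2
  norm_num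

lemma exists_r (hb : 31000 ≤ (b : ℝ)) : ∃ r : ℝ, 0 < r ∧ r ≤ 169 / 100 / ((b : ℝ) + 1) ∧
    (1 - r) ^ (b + 1) * (1 + ((b : ℝ) + 1) * r) = 1 / 2 := by
  have hN : (0 : ℝ) < (b : ℝ) + 1 := by positivity
  have hc : ContinuousOn (fun r : ℝ => (1 - r) ^ (b + 1) * (1 + ((b : ℝ) + 1) * r))
      (Icc 0 (169 / 100 / ((b : ℝ) + 1))) := by fun_prop
  have h1 : (1 - 169 / 100 / ((b : ℝ) + 1)) ^ (b + 1) *
      (1 + ((b : ℝ) + 1) * (169 / 100 / ((b : ℝ) + 1))) ≤ 1 / 2 := by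
    have h2 : ((b : ℝ) + 1) * (169 / 100 / ((b : ℝ) + 1)) = 169 / 100 := by field_simp
    rw [h2]
    have h3 : (1 - 169 / 100 / ((b : ℝ) + 1)) ^ (b + 1) ≤ Real.exp (-(169 / 100)) := by
      have h4 := Real.one_sub_div_pow_le_exp_neg (n := b + 1) (t := 169 / 100) (by
        push_cast
        linarith)
      push_cast at h4
      exact h4
    have h4 : Real.exp (-(169 / 100)) ≤ 100 / 538 := by
      rw [Real.exp_neg, inv_le_comm₀ (Real.exp_pos _) (by norm_num)]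
      have := exp_a
      norm_num at this ⊢
      linarith
    have h5 := h3.trans h4
    nlinarith
  obtain ⟨r, hr, hrf⟩ := intermediate_value_Icc' (by positivity) hc
    (show (1 / 2 : ℝ) ∈ Icc _ _ from ⟨h1, by norm_num⟩)
  refine ⟨r, ?_, hr.2, hrf⟩
  refine lt_of_le_of_ne hr.1 fun h0 => ?_
  rw [← h0] at hrf
  norm_num at hrf

theorem final : ¬ ∃ c : ℝ, 0 < c ∧ FH c := by
  rintro ⟨c₀, hc₀, hFH₀⟩
  obtain ⟨c, hcd⟩ : ∃ c, c = min c₀ 1 := ⟨_, rfl⟩
  have hc : 0 < c := by rw [hcd]; exact lt_min hc₀ one_pos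
  have hc1 : c ≤ 1 := by rw [hcd]; exact min_le_right _ _
  have hFH : FH c := by
    intro n Ω E h1 h2 h3 h4 h5 h6 h7 h8 h9
    obtain ⟨Γ, g1, g2, g3⟩ := hFH₀ n Ω E h1 h2 h3 h4 h5 h6 h7 h8 h9
    refine ⟨Γ, g1, g2, le_trans ?_ g3⟩
    refine mul_le_mul_left (ENNReal.ofReal_le_ofReal ?_) _
    rw [hcd]
    exact min_le_left _ _
  obtain ⟨b, hb⟩ := exists_nat_ge (31000 / c ^ 3)
  have hc3 : c ^ 3 ≤ 1 := pow_le_one₀ hc.le hc1
  have hb1 : (31000 : ℝ) ≤ b := by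
    refine le_trans ?_ hb
    rw [le_div_iff₀ (by positivity)]
    nlinarith
  obtain ⟨r, hr, hru, hre⟩ := exists_r hb1
  have hN : (0 : ℝ) < (b : ℝ) + 1 := by positivity
  have hrs : r * ((b : ℝ) + 1) ≤ 169 / 100 := by rwa [le_div_iff₀ hN] at hru
  have hr4 : r ≤ 1 / 10000 := by nlinarith
  have hU : U b r = 1 / (((b : ℝ) + 1) * (b + 2)) / 2 := by
    unfold U
    rw [hre]
    ring
  have h5b : (5 : ℝ) / ((b : ℝ) + 1) < 1 := by
    rw [div_lt_one hN]
    linarith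
  have hk := key (b := b) hc hc1 hb hFH hr (by linarith) hU (r₀ := 5 / 1000 / ((b : ℝ) + 1))
    (R₁ := 5 / ((b : ℝ) + 1)) (by positivity)
    (div_le_div_of_nonneg_right (by norm_num) hN.le) h5b
    (div_le_div_of_nonneg_left (by norm_num) (by linarith) (by linarith))
  -- the integral
  have hint : ∫ ρ in (5 / 1000 / ((b : ℝ) + 1))..(5 / ((b : ℝ) + 1)), (1 - ρ) ^ b =
      ((1 - 5 / 1000 / ((b : ℝ) + 1)) ^ (b + 1) - (1 - 5 / ((b : ℝ) + 1)) ^ (b + 1)) /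
        ((b : ℝ) + 1) := by
    rw [intervalIntegral.integral_eq_sub_of_hasDerivAt
      (f := fun ρ : ℝ => - (1 - ρ) ^ (b + 1) / ((b : ℝ) + 1))]
    · ring
    · intro ρ _
      have h1 : HasDerivAt (fun r : ℝ => 1 - r) (-1) ρ := by
        simpa using (hasDerivAt_id ρ).const_sub 1
      have h2 : HasDerivAt (fun r : ℝ => (1 - r) ^ (b + 1)) ((b + 1 : ℕ) * (1 - ρ) ^ b * (-1)) ρ :=
        h1.fun_pow (b + 1)
      refine (h2.neg.div_const ((b : ℝ) + 1)).congr_deriv ?_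
      push_cast
      field_simp
    · exact Continuous.intervalIntegrable (by fun_prop) _ _
  rw [hint] at hk
  have e1 : (995 : ℝ) / 1000 ≤ (1 - 5 / 1000 / ((b : ℝ) + 1)) ^ (b + 1) := by
    have h1 := one_add_mul_le_pow (a := -(5 / 1000 / ((b : ℝ) + 1))) (by
      have : 5 / 1000 / ((b : ℝ) + 1) ≤ 1 := by
        rw [div_le_one hN]
        linarith
      linarith) (b + 1)
    have h2 : ((b + 1 : ℕ) : ℝ) * -(5 / 1000 / ((b : ℝ) + 1)) = -(5 / 1000) := by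
      push_cast
      field_simp
    rw [h2] at h1
    refine le_trans (by norm_num) (h1.trans (le_of_eq ?_))
    ring
  have e2 : (1 - 5 / ((b : ℝ) + 1)) ^ (b + 1) ≤ 68 / 10000 := by
    have h4 := Real.one_sub_div_pow_le_exp_neg (n := b + 1) (t := 5) (by
      push_cast
      linarith)
    push_cast at h4
    exact h4.trans exp_b
  -- the right side
  have e3 : (1 - r) ^ b * (1 - r) * (1 + ((b : ℝ) + 1) * r) = 1 / 2 := by
    rw [← pow_succ]
    exact hre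
  obtain ⟨q, hq⟩ : ∃ q : ℝ, q = (1 - r) ^ b := ⟨_, rfl⟩
  rw [← hq] at hk e3
  have hq0 : 0 < q := by
    rw [hq]
    have : 0 < 1 - r := by linarith
    positivity
  obtain ⟨s, hs⟩ : ∃ s : ℝ, s = ((b : ℝ) + 1) * r := ⟨_, rfl⟩
  rw [← hs] at e3
  have hs1 : s ≤ 169 / 100 := by rw [hs]; linarith
  have hs0 : 0 < s := by rw [hs]; positivity
  have hk2 : 2 * (995 / 1000 - 68 / 10000) ≤ 2 * π * (s * q) := by
    have h1 : 2 * ((995 : ℝ) / 1000 - 68 / 10000) ≤ 2 * ((1 - 5 / 1000 / ((b : ℝ) + 1)) ^ (b + 1) -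
        (1 - 5 / ((b : ℝ) + 1)) ^ (b + 1)) := by linarith
    refine h1.trans ?_
    have h2 := mul_le_mul_of_nonneg_right hk hN.le
    have h3 : 2 * (((1 - 5 / 1000 / ((b : ℝ) + 1)) ^ (b + 1) - (1 - 5 / ((b : ℝ) + 1)) ^ (b + 1)) /
        ((b : ℝ) + 1)) * ((b : ℝ) + 1) = 2 * ((1 - 5 / 1000 / ((b : ℝ) + 1)) ^ (b + 1) -
        (1 - 5 / ((b : ℝ) + 1)) ^ (b + 1)) := by
      field_simp
    rw [h3] at h2
    refine h2.trans (le_of_eq ?_)
    rw [hs]
    ring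
  -- `q (1 - r) (1 + s) = 1/2`, so `s q ≤ (169/269) / (2 (1 - r))`
  have hsq : s * q ≤ 169 / 269 / 2 * (10000 / 9999) := by
    have h1 : q * (1 + s) ≤ 1 / 2 * (10000 / 9999) := by
      have h2 : q * (1 + s) * (1 - r) = 1 / 2 := by linarith
      have h3 : q * (1 + s) * (9999 / 10000) ≤ q * (1 + s) * (1 - r) :=
        mul_le_mul_of_nonneg_left (by linarith) (by positivity)
      linarith
    have h4 : s ≤ 169 / 269 * (1 + s) := by linarith
    calc s * q ≤ 169 / 269 * (1 + s) * q := mul_le_mul_of_nonneg_right h4 hq0.le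
      _ = 169 / 269 * (q * (1 + s)) := by ring
      _ ≤ 169 / 269 * (1 / 2 * (10000 / 9999)) := mul_le_mul_of_nonneg_left h1 (by norm_num)
      _ = 169 / 269 / 2 * (10000 / 9999) := by ring
  have hπ := Real.pi_lt_d2
  have hπ0 := Real.pi_pos
  have hfin : 2 * π * (s * q) ≤ 2 * 3.1416 * (169 / 269 / 2 * (10000 / 9999)) := by
    have := Real.pi_lt_d4
    refine mul_le_mul (by linarith) hsq (by positivity) (by norm_num)
  norm_num at hfin hk2
  linarith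

end Run7.h717.HV
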