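import Pool.Agent.Run7.h717.HV.Base

/-!
# MP_65ff7c_an: geometry for the cones: caps of balls, wedges in the plane
-/

set_option autoImplicit false

open MeasureTheory Set Metric Filter Topology
open scoped ENNReal Real ComplexConjugate

noncomputable section

namespace Run7.h717.HV

open Pool.Agent.TH703.Cone (PLE Tst S_T1 S_T2)

variable {b : ℕ} {ε : ℝ}

/-! ### caps -/

lemma sq_inner_swap {e e' : BB b} (he : ‖e‖ = 1) (he' : ‖e'‖ = 1) (R : ℝ) :
    ∫ y in ball (0 : BB b) R, (inner ℝ e y) ^ 2 = ∫ y in ball (0 : BB b) R, (inner ℝ e' y) ^ 2 := by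
  obtain ⟨L, hL⟩ : ∃ L : BB b ≃ₗᵢ[ℝ] BB b, L e = e' :=
    ⟨Submodule.reflection (ℝ ∙ (e - e'))ᗮ, Submodule.reflection_sub (by rw [he, he'])⟩
  have h1 := (L.measurePreserving).setIntegral_preimage_emb L.toHomeomorph.measurableEmbedding
    (fun y => (inner ℝ e' y) ^ 2) (ball 0 R)
  have h2 : L ⁻¹' (ball (0 : BB b) R) = ball 0 R := by
    rw [LinearIsometryEquiv.preimage_ball, map_zero]
  rw [h2] at h1
  rw [← h1]
  refine integral_congr_ae (ae_of_all _ fun y => ?_)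
  simp only
  rw [← hL, LinearIsometryEquiv.inner_map_map]

lemma sq_inner_int {e : BB b} (he : ‖e‖ = 1) {R : ℝ} (hR : 0 < R) :
    b * ∫ y in ball (0 : BB b) R, (inner ℝ e y) ^ 2 ≤ R ^ 2 * volume.real (ball (0 : BB b) R) := by
  have hfin : volume (ball (0 : BB b) R) < ⊤ := measure_ball_lt_top
  have hint : ∀ f : BB b → ℝ, Continuous f → IntegrableOn f (ball (0 : BB b) R) := fun f hf =>
    (hf.continuousOn.integrableOn_compact (isCompact_closedBall 0 R)).mono_set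
      ball_subset_closedBall
  have h1 : ∀ i : Fin b, ∫ y in ball (0 : BB b) R, (inner ℝ e y) ^ 2 =
      ∫ y in ball (0 : BB b) R, (y i) ^ 2 := by
    intro i
    rw [sq_inner_swap he (e' := EuclideanSpace.single i (1 : ℝ)) (by simp)]
    refine integral_congr_ae (ae_of_all _ fun y => ?_)
    simp [EuclideanSpace.inner_single_left]
  have h2 : b * ∫ y in ball (0 : BB b) R, (inner ℝ e y) ^ 2 =
      ∑ i : Fin b, ∫ y in ball (0 : BB b) R, (y i) ^ 2 := by
    rw [Finset.sum_congr rfl (fun i _ => (h1 i).symm), Finset.sum_const, Finset.card_univ,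
      Fintype.card_fin, nsmul_eq_mul]
  rw [h2, ← integral_finsetSum]
  · have h3 : ∫ y in ball (0 : BB b) R, ∑ i : Fin b, (y i) ^ 2 ≤
        ∫ _ in ball (0 : BB b) R, R ^ 2 := by
      refine setIntegral_mono_on (hint _ (by fun_prop)) (hint _ continuous_const)
        measurableSet_ball fun y hy => ?_
      have h4 := EuclideanSpace.norm_sq_eq y
      simp only [Real.norm_eq_abs, sq_abs] at h4
      rw [← h4]
      rw [mem_ball_zero_iff] at hy
      have := norm_nonneg y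
      nlinarith
    refine h3.trans (le_of_eq ?_)
    rw [setIntegral_const, smul_eq_mul, mul_comm]
  · intro i _
    exact hint _ (by fun_prop)

lemma cap {e : BB b} (he : ‖e‖ = 1) {R τ : ℝ} (hR : 0 < R) (hτ : 0 < τ) {S : Set (BB b)}
    (hS : S ⊆ ball 0 R) (hSm : MeasurableSet S) (h : ∀ y ∈ S, τ * R ≤ inner ℝ e y) :
    b * τ ^ 2 * volume.real S ≤ volume.real (ball (0 : BB b) R) := by
  have h1 := sq_inner_int he hR
  have hint : IntegrableOn (fun y : BB b => (inner ℝ e y) ^ 2) (ball (0 : BB b) R) := by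
    have hc : Continuous fun y : BB b => (inner ℝ e y) ^ 2 := by fun_prop
    exact (hc.continuousOn.integrableOn_compact (isCompact_closedBall 0 R)).mono_set
      ball_subset_closedBall
  have hSf : volume S ≠ ⊤ := ((measure_mono hS).trans_lt measure_ball_lt_top).ne
  have h2 : (τ * R) ^ 2 * volume.real S ≤ ∫ y in ball (0 : BB b) R, (inner ℝ e y) ^ 2 := by
    calc (τ * R) ^ 2 * volume.real S = ∫ _ in S, (τ * R) ^ 2 := by
          rw [setIntegral_const, smul_eq_mul, mul_comm]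
      _ ≤ ∫ y in S, (inner ℝ e y) ^ 2 := by
          refine setIntegral_mono_on (integrableOn_const hSf) (hint.mono_set hS) hSm fun y hy => ?_
          have h3 := h y hy
          have h4 : 0 < τ * R := by positivity
          nlinarith
      _ ≤ ∫ y in ball (0 : BB b) R, (inner ℝ e y) ^ 2 :=
          setIntegral_mono_set hint (ae_of_all _ fun y => sq_nonneg _)
            (Filter.Eventually.of_forall hS)
  have h5 : (b : ℝ) * ((τ * R) ^ 2 * volume.real S) ≤ R ^ 2 * volume.real (ball (0 : BB b) R) :=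
    (mul_le_mul_of_nonneg_left h2 (Nat.cast_nonneg b)).trans h1
  have h6 : R ^ 2 * (b * τ ^ 2 * volume.real S) ≤ R ^ 2 * volume.real (ball (0 : BB b) R) := by
    calc R ^ 2 * (b * τ ^ 2 * volume.real S) = (b : ℝ) * ((τ * R) ^ 2 * volume.real S) := by ring
      _ ≤ _ := h5
  exact le_of_mul_le_mul_left h6 (by positivity)

/-- a convex open subset of the ball of large volume contains a point near the centre -/
lemma near {R τ κ : ℝ} (hR : 0 < R) (hτ : 0 < τ) {S : Set (BB b)} (hS : S ⊆ ball 0 R)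
    (hSo : IsOpen S) (hSc : Convex ℝ S) (hκ : 0 < κ) (hκ2 : 1 < b * τ ^ 2 * κ)
    (hv : κ * volume.real (ball (0 : BB b) R) ≤ volume.real S) : ∃ y ∈ S, ‖y‖ < τ * R := by
  by_contra hcon
  push Not at hcon
  have hbp : 0 < volume.real (ball (0 : BB b) R) := by
    rw [Measure.real, ENNReal.toReal_pos_iff]
    exact ⟨measure_ball_pos _ _ hR, measure_ball_lt_top⟩
  have hne : S.Nonempty := by
    by_contra h
    rw [not_nonempty_iff_eq_empty] at h
    rw [h, measureReal_empty] at hv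
    nlinarith
  have hτR : 0 < τ * R := by positivity
  have hd : Disjoint (ball (0 : BB b) (τ * R)) S := by
    rw [Set.disjoint_left]
    intro y hy hyS
    rw [mem_ball_zero_iff] at hy
    exact absurd hy (not_lt.2 (hcon y hyS))
  obtain ⟨f, u, hf1, hf2⟩ := geometric_hahn_banach_open (convex_ball (0 : BB b) (τ * R))
    isOpen_ball hSc hd
  obtain ⟨e, he⟩ := (InnerProductSpace.toDual ℝ (BB b)).surjective f
  have hfe : ∀ y, f y = inner ℝ e y := by
    intro y
    rw [← he, InnerProductSpace.toDual_apply_apply]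
  have hu0 : 0 < u := by
    have := hf1 0 (by rw [mem_ball_zero_iff, norm_zero]; exact hτR)
    rwa [map_zero] at this
  have he0 : 0 < ‖e‖ := by
    rw [norm_pos_iff]
    rintro rfl
    obtain ⟨y, hy⟩ := hne
    have := hf2 y hy
    rw [hfe, inner_zero_left] at this
    linarith
  have hue : τ * R * ‖e‖ ≤ u := by
    refine le_of_forall_lt_imp_le_of_dense fun s hs => ?_
    have h1 := hf1 ((s / ‖e‖ ^ 2) • e)
    by_cases hs0 : 0 ≤ s
    · have h2 : (s / ‖e‖ ^ 2) • e ∈ ball (0 : BB b) (τ * R) := by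
        rw [mem_ball_zero_iff, norm_smul, Real.norm_of_nonneg (by positivity)]
        rw [show s / ‖e‖ ^ 2 * ‖e‖ = s / ‖e‖ by field_simp, div_lt_iff₀ he0]
        exact hs
      have h3 := h1 h2
      rw [hfe, inner_smul_right, real_inner_self_eq_norm_sq,
        div_mul_cancel₀ _ (by positivity)] at h3
      exact h3.le
    · exact (not_le.1 hs0).le.trans hu0.le
  have h1 := cap (e := ‖e‖⁻¹ • e) (by rw [norm_smul, norm_inv, norm_norm, inv_mul_cancel₀ he0.ne'])
    hR hτ hS hSo.measurableSet (fun y hy => by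
      rw [inner_smul_left]
      simp only [conj_trivial]
      rw [← hfe, le_inv_mul_iff₀ he0]
      have := hf2 y hy
      linarith)
  have h2 : b * τ ^ 2 * (κ * volume.real (ball (0 : BB b) R)) ≤
      volume.real (ball (0 : BB b) R) :=
    (mul_le_mul_of_nonneg_left hv (by positivity)).trans h1
  nlinarith

/-! ### wedges -/

lemma vol_rect {s t : ℝ} (hs : 0 ≤ s) :
    volume {z : ℂ | |z.re| ≤ s ∧ |z.im| ≤ t} = ENNReal.ofReal (4 * s * t) := by
  have h := Complex.volume_preserving_equiv_real_prod.measure_preimage_equiv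
    (Icc (-s) s ×ˢ Icc (-t) t)
  have h2 : Complex.measurableEquivRealProd ⁻¹' (Icc (-s) s ×ˢ Icc (-t) t) =
      {z : ℂ | |z.re| ≤ s ∧ |z.im| ≤ t} := by
    ext z
    simp only [Complex.measurableEquivRealProd_apply, mem_preimage, mem_prod, mem_Icc,
      Set.mem_setOf_eq, abs_le]
  rw [h2] at h
  rw [h, Measure.volume_eq_prod, Measure.prod_prod, Real.volume_Icc, Real.volume_Icc,
    ← ENNReal.ofReal_mul (by linarith)]
  congr 1
  ring

lemma vol_wedge {X : Set ℂ} (hX : X ⊆ closedBall 0 1) {σ : ℝ} (hσ : 0 ≤ σ) {x : ℂ} (hx : x ≠ 0)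
    (h : ∀ z ∈ X, |(conj x * z).im| ≤ σ * ‖x‖ * ‖z‖) : volume X ≤ ENNReal.ofReal (4 * σ) := by
  have hx0 : 0 < ‖x‖ := norm_pos_iff.2 hx
  obtain ⟨L, hL⟩ : ∃ L : ℂ ≃ₗᵢ[ℝ] ℂ, ∀ z, L z = (conj x / ‖x‖) * z := by
    refine ⟨rotation ⟨conj x / ‖x‖, ?_⟩, fun z => ?_⟩
    · rw [Submonoid.unitSphere, ]
      simp [hx0.ne']
    · rw [rotation_apply]
  have h1 : X ⊆ L ⁻¹' {z : ℂ | |z.re| ≤ 1 ∧ |z.im| ≤ σ} := by
    intro z hz
    have hz1 : ‖z‖ ≤ 1 := by simpa using hX hz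
    have hn : ‖L z‖ = ‖z‖ := L.norm_map z
    refine ⟨((Complex.abs_re_le_norm _).trans hn.le).trans hz1, ?_⟩
    rw [hL]
    have h2 : conj x / ‖x‖ * z = ((‖x‖⁻¹ : ℝ) : ℂ) * (conj x * z) := by
      rw [Complex.ofReal_inv]
      ring
    rw [h2, Complex.im_ofReal_mul, abs_mul, abs_of_pos (inv_pos.2 hx0), inv_mul_le_iff₀ hx0]
    refine (h z hz).trans ?_
    have : σ * ‖x‖ * ‖z‖ ≤ σ * ‖x‖ * 1 := mul_le_mul_of_nonneg_left hz1 (by positivity)
    linarith
  refine (measure_mono h1).trans ?_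
  rw [(L.measurePreserving).measure_preimage]
  · rw [vol_rect zero_le_one]
    exact ENNReal.ofReal_le_ofReal (by linarith)
  · refine MeasurableSet.nullMeasurableSet ?_
    have h3 : IsClosed {z : ℂ | |z.re| ≤ 1 ∧ |z.im| ≤ σ} :=
      (isClosed_le Complex.continuous_re.abs continuous_const).inter
        (isClosed_le Complex.continuous_im.abs continuous_const)
    exact h3.measurableSet

lemma vol_quad {X : Set ℂ} (hX : X ⊆ closedBall 0 1) (h0 : (0 : ℂ) ∉ X) {σ : ℝ} (hσ : 0 ≤ σ)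
    (h : ∀ x ∈ X, ∀ z ∈ X, 0 ≤ (conj x * z).re → |(conj x * z).im| ≤ σ * ‖x‖ * ‖z‖) :
    volume X ≤ ENNReal.ofReal (16 * σ) := by
  have key : ∀ Q : Set ℂ, (∀ x ∈ Q, ∀ z ∈ Q, 0 ≤ (conj x * z).re) →
      volume (X ∩ Q) ≤ ENNReal.ofReal (4 * σ) := by
    intro Q hQ
    rcases (X ∩ Q).eq_empty_or_nonempty with he | ⟨x, hx⟩
    · rw [he, measure_empty]
      exact bot_le
    · refine vol_wedge (inter_subset_left.trans hX) hσ (x := x)
        (fun hx0 => h0 (hx0 ▸ hx.1)) fun z hz => ?_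
      exact h x hx.1 z hz.1 (hQ x hx.2 z hz.2)
  have hre : ∀ x z : ℂ, (conj x * z).re = x.re * z.re + x.im * z.im := by
    intro x z
    simp
  have k1 := key {z | 0 ≤ z.re ∧ 0 ≤ z.im} (fun x hx z hz => by
    rw [hre]
    have := mul_nonneg hx.1 hz.1
    have := mul_nonneg hx.2 hz.2
    linarith)
  have k2 := key {z | 0 ≤ z.re ∧ z.im ≤ 0} (fun x hx z hz => by
    rw [hre]
    have := mul_nonneg hx.1 hz.1
    have := mul_nonneg_of_nonpos_of_nonpos hx.2 hz.2
    linarith)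
  have k3 := key {z | z.re ≤ 0 ∧ 0 ≤ z.im} (fun x hx z hz => by
    rw [hre]
    have := mul_nonneg_of_nonpos_of_nonpos hx.1 hz.1
    have := mul_nonneg hx.2 hz.2
    linarith)
  have k4 := key {z | z.re ≤ 0 ∧ z.im ≤ 0} (fun x hx z hz => by
    rw [hre]
    have := mul_nonneg_of_nonpos_of_nonpos hx.1 hz.1
    have := mul_nonneg_of_nonpos_of_nonpos hx.2 hz.2
    linarith)
  have hcov : X ⊆ ((X ∩ {z | 0 ≤ z.re ∧ 0 ≤ z.im}) ∪ (X ∩ {z | 0 ≤ z.re ∧ z.im ≤ 0})) ∪
      ((X ∩ {z | z.re ≤ 0 ∧ 0 ≤ z.im}) ∪ (X ∩ {z | z.re ≤ 0 ∧ z.im ≤ 0})) := by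
    intro z hz
    rcases le_total 0 z.re with h1 | h1 <;> rcases le_total 0 z.im with h2 | h2
    · exact Or.inl (Or.inl ⟨hz, h1, h2⟩)
    · exact Or.inl (Or.inr ⟨hz, h1, h2⟩)
    · exact Or.inr (Or.inl ⟨hz, h1, h2⟩)
    · exact Or.inr (Or.inr ⟨hz, h1, h2⟩)
  calc volume X ≤ _ := measure_mono hcov
    _ ≤ (ENNReal.ofReal (4 * σ) + ENNReal.ofReal (4 * σ)) +
        (ENNReal.ofReal (4 * σ) + ENNReal.ofReal (4 * σ)) :=
      (measure_union_le _ _).trans (add_le_add ((measure_union_le _ _).trans (add_le_add k1 k2))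
        ((measure_union_le _ _).trans (add_le_add k3 k4)))
    _ = ENNReal.ofReal (16 * σ) := by
      rw [← ENNReal.ofReal_add (by positivity) (by positivity),
        ← ENNReal.ofReal_add (by positivity) (by positivity)]
      congr 1
      ring

/-- decomposition along two directions -/
lemma dec {v₁ v₂ : ℂ} (h1 : ‖v₁‖ = 1) (h2 : ‖v₂‖ = 1) (hg : 0 ≤ (conj v₁ * v₂).re) {σ : ℝ}
    (h0 : 0 < σ) (hs : σ ≤ |(conj v₁ * v₂).im|) : ∃ u : ℂ, ‖u‖ = 1 ∧ ∀ x : ℂ, 0 < (x * u).re →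
      |(x * u).im| ≤ σ / 8 * ‖x‖ → ∃ α β : ℝ, x = α • v₁ + β • v₂ ∧ 3 / 10 * ‖x‖ ≤ α ∧
        α ≤ ‖x‖ ∧ 3 / 10 * ‖x‖ ≤ β ∧ β ≤ ‖x‖ := by
  obtain ⟨g, hgd⟩ : ∃ g, g = (conj v₁ * v₂).re := ⟨_, rfl⟩
  obtain ⟨s, hsd⟩ : ∃ s, s = (conj v₁ * v₂).im := ⟨_, rfl⟩
  rw [← hgd] at hg
  rw [← hsd] at hs
  have hv11 : conj v₁ * v₁ = 1 := by
    rw [mul_comm, Complex.mul_conj, Complex.normSq_eq_norm_sq, h1]
    simp
  have hv22 : conj v₂ * v₂ = 1 := by
    rw [mul_comm, Complex.mul_conj, Complex.normSq_eq_norm_sq, h2]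
    simp
  have hgs : conj v₁ * v₂ = (g : ℂ) + s * Complex.I := by
    rw [hgd, hsd]
    exact (Complex.re_add_im _).symm
  have hgs2 : g ^ 2 + s ^ 2 = 1 := by
    have h3 : ‖conj v₁ * v₂‖ ^ 2 = 1 := by
      rw [norm_mul, Complex.norm_conj, h1, h2]
      norm_num
    rw [Complex.sq_norm, Complex.normSq_apply, ← hgd, ← hsd] at h3
    linarith
  have hs0 : s ≠ 0 := by
    rintro rfl
    rw [abs_zero] at hs
    linarith
  have hg1 : g ≤ 1 := by nlinarith [sq_nonneg s]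
  have hs1 : σ ≤ 1 := by
    have : |s| ≤ 1 := abs_le_one_iff_mul_self_le_one.2 (by nlinarith [sq_nonneg g])
    linarith
  -- the norm of the sum
  have hN : ‖v₁ + v₂‖ ^ 2 = 2 + 2 * g := by
    have h3 : ‖v₁ + v₂‖ ^ 2 = ‖v₁‖ ^ 2 + 2 * (conj v₁ * v₂).re + ‖v₂‖ ^ 2 := by
      rw [Complex.sq_norm, Complex.sq_norm, Complex.sq_norm, Complex.normSq_apply,
        Complex.normSq_apply, Complex.normSq_apply]
      simp
      ring
    rw [h3, h1, h2, ← hgd]
    ring
  obtain ⟨N, hNd⟩ : ∃ N, N = ‖v₁ + v₂‖ := ⟨_, rfl⟩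
  have hN0 : 0 ≤ N := by rw [hNd]; exact norm_nonneg _
  rw [← hNd] at hN
  have hNl : 7 / 5 ≤ N := by nlinarith
  have hNu : N ≤ 2 := by nlinarith
  have hNp : 0 < N := by linarith
  have hv21 : v₂ = ((g : ℂ) + s * Complex.I) * v₁ := by
    rw [← hgs, mul_assoc, mul_comm v₂ v₁, ← mul_assoc, hv11, one_mul]
  have hv12 : v₁ = ((g : ℂ) - s * Complex.I) * v₂ := by
    have h3 : (g : ℂ) - s * Complex.I = conj v₂ * v₁ := by
      have h4 := congrArg conj hgs
      rw [map_mul, Complex.conj_conj, map_add, map_mul, Complex.conj_ofReal, Complex.conj_ofReal,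
        Complex.conj_I] at h4
      rw [mul_comm (conj v₂), h4]
      ring
    rw [h3, mul_assoc, mul_comm v₁ v₂, ← mul_assoc, hv22, one_mul]
  have hsC : (s : ℂ) ≠ 0 := Complex.ofReal_ne_zero.2 hs0
  have hNC : (N : ℂ) ≠ 0 := Complex.ofReal_ne_zero.2 hNp.ne'
  have hI : Complex.I * (v₁ + v₂) = ((1 + g) / s : ℂ) * (v₂ - v₁) := by
    have e1 : Complex.I * v₁ * s = v₂ - g * v₁ := by linear_combination (-1 : ℂ) * hv21
    have e2 : Complex.I * v₂ * s = g * v₂ - v₁ := by linear_combination hv12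
    field_simp
    linear_combination e1 + e2
  refine ⟨conj (v₁ + v₂) / N, ?_, fun x hx1 hx2 => ?_⟩
  · rw [norm_div, Complex.norm_conj, ← hNd, Complex.norm_real, Real.norm_of_nonneg hN0,
      div_self hNp.ne']
  · obtain ⟨p, hp⟩ : ∃ p, p = (x * (conj (v₁ + v₂) / N)).re := ⟨_, rfl⟩
    obtain ⟨q, hq⟩ : ∃ q, q = (x * (conj (v₁ + v₂) / N)).im := ⟨_, rfl⟩
    rw [← hp] at hx1
    rw [← hq] at hx2
    have hxu : x * (conj (v₁ + v₂) / N) = (p : ℂ) + q * Complex.I := by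
      rw [hp, hq]
      exact (Complex.re_add_im _).symm
    have hww : conj (v₁ + v₂) * (v₁ + v₂) = (N : ℂ) ^ 2 := by
      rw [mul_comm, Complex.mul_conj, Complex.normSq_eq_norm_sq, ← hNd]
      push_cast
      ring
    have hx : x = ((p : ℂ) + q * Complex.I) * (v₁ + v₂) / N := by
      rw [← hxu]
      field_simp
      linear_combination (-x) * hww
    have hpq : p ^ 2 + q ^ 2 = ‖x‖ ^ 2 := by
      have h3 : ‖x * (conj (v₁ + v₂) / N)‖ ^ 2 = ‖x‖ ^ 2 := by
        rw [norm_mul, norm_div, Complex.norm_conj, ← hNd, Complex.norm_real,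
          Real.norm_of_nonneg hN0, div_self hNp.ne', mul_one]
      rw [Complex.sq_norm, Complex.normSq_apply, ← hp, ← hq] at h3
      linarith
    obtain ⟨k, hk⟩ : ∃ k, k = q * (1 + g) / s := ⟨_, rfl⟩
    have hkb : |k| ≤ ‖x‖ / 4 := by
      rw [hk, abs_div, abs_mul, div_le_iff₀ (abs_pos.2 hs0), abs_of_nonneg (by linarith : 0 ≤ 1 + g)]
      have hxn := norm_nonneg x
      have h3 : |q| * (1 + g) ≤ σ / 8 * ‖x‖ * 2 :=
        mul_le_mul hx2 (by linarith) (by linarith) (by positivity)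
      have h4 : ‖x‖ / 4 * σ ≤ ‖x‖ / 4 * |s| := mul_le_mul_of_nonneg_left hs (by positivity)
      linarith
    have hpl : 19 / 20 * ‖x‖ ≤ p := by
      have hxn := norm_nonneg x
      have h3 : q ^ 2 ≤ (‖x‖ / 8) ^ 2 := by
        rw [← sq_abs q]
        have : |q| ≤ ‖x‖ / 8 := by
          refine hx2.trans ?_
          have : σ * ‖x‖ ≤ 1 * ‖x‖ := mul_le_mul_of_nonneg_right hs1 hxn
          linarith
        exact pow_le_pow_left₀ (abs_nonneg _) this 2
      have h4 : (19 / 20 * ‖x‖) ^ 2 ≤ p ^ 2 := by nlinarith [sq_nonneg ‖x‖]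
      exact (pow_le_pow_iff_left₀ (by positivity) hx1.le two_ne_zero).1 h4
    have hpu : p ≤ ‖x‖ := by
      have h4 : p ^ 2 ≤ ‖x‖ ^ 2 := by nlinarith [sq_nonneg q]
      exact (pow_le_pow_iff_left₀ hx1.le (norm_nonneg _) two_ne_zero).1 h4
    have hkl := abs_le.1 hkb
    have hxn := norm_nonneg x
    refine ⟨(p - k) / N, (p + k) / N, ?_, ?_, ?_, ?_, ?_⟩
    · rw [Complex.real_smul, Complex.real_smul]
      nth_rewrite 1 [hx]
      have e3 : ((p : ℂ) + q * Complex.I) * (v₁ + v₂) =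
          p * (v₁ + v₂) + q * (Complex.I * (v₁ + v₂)) := by ring
      rw [e3, hI, hk]
      push_cast
      field_simp
      ring
    · rw [le_div_iff₀ hNp]
      nlinarith
    · rw [div_le_iff₀ hNp]
      nlinarith
    · rw [le_div_iff₀ hNp]
      nlinarith
    · rw [div_le_iff₀ hNp]
      nlinarith

end Run7.h717.HV
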