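import Pool.Agent.Run7.h717.HV.Base

/-!
# MP_65ff7c_an: the perimeter and the volume of the cylinders
-/

set_option autoImplicit false

open MeasureTheory Set Metric Filter Topology
open scoped ENNReal Real

noncomputable section

namespace Run7.h717.HV

open Pool.Agent.TH304.MI Pool.Agent.TH959.MI Pool.Agent.TH959.HU Pool.Agent.TH914.HU
open Pool.Agent.TH703.Cone (PLE Tst S_T1 S_T2)

variable {b : ℕ} {ε : ℝ}

lemma norm_xc_le (p : PP b) : ‖xc p‖ ≤ ‖p‖ := by
  have h := norm_sq p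
  have h1 : ‖xc p‖ ^ 2 ≤ ‖p‖ ^ 2 := by
    have := sq_nonneg ‖yE p‖
    linarith
  exact (pow_le_pow_iff_left₀ (norm_nonneg _) (norm_nonneg _) two_ne_zero).1 h1

lemma norm_yE_le (p : PP b) : ‖yE p‖ ≤ ‖p‖ := by
  have h := norm_sq p
  have h1 : ‖yE p‖ ^ 2 ≤ ‖p‖ ^ 2 := by
    have := sq_nonneg ‖xc p‖
    linarith
  exact (pow_le_pow_iff_left₀ (norm_nonneg _) (norm_nonneg _) two_ne_zero).1 h1

lemma volume_fib' (A : Set (PP b)) (x : ℂ) :
    volume {y : Fin b → ℝ | Sb b (x, y) ∈ A} = volume (fib A x) := by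
  have h := (EuclideanSpace.volume_preserving_symm_measurableEquiv_toLp (Fin b)).symm
  have h2 := h.measure_preimage_equiv (fib A x)
  rw [← h2]
  rfl

lemma norm_marg_le (hε : 0 < ε) {φ : PP b → PP b} (hφ : Tst (Om b ε) φ) {x : ℂ} (hx : ‖x‖ < 1) :
    ‖∫ y, Fx φ (x, y)‖ ≤ vb b ε * (1 - ‖x‖) ^ b := by
  have hm : MeasurableSet {y : Fin b → ℝ | Sb b (x, y) ∈ Om b ε} := by
    have hc : Continuous fun y : Fin b → ℝ => Sb b (x, y) :=
      (Sb b).continuous.comp (Continuous.prodMk_right x)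
    exact hc.measurable isOpen_Om.measurableSet
  have h1 : ∀ y, ‖Fx φ (x, y)‖ ≤ {y : Fin b → ℝ | Sb b (x, y) ∈ Om b ε}.indicator
      (fun _ => (1 : ℝ)) y := by
    intro y
    by_cases hy : y ∈ {y : Fin b → ℝ | Sb b (x, y) ∈ Om b ε}
    · rw [indicator_of_mem hy]
      exact (norm_xc_le _).trans (hφ.le _)
    · rw [indicator_of_notMem hy]
      have h2 : φ (Sb b (x, y)) = 0 := by
        by_contra h
        exact hy (hφ.sub (subset_tsupport _ h))
      have h3 : Fx φ (x, y) = 0 := by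
        unfold Fx
        rw [h2, map_zero]
      rw [h3, norm_zero]
  have hv := volume_fib' (Om b ε) x
  rw [volume_fib_Om hε hx] at hv
  have hi : Integrable ({y : Fin b → ℝ | Sb b (x, y) ∈ Om b ε}.indicator (fun _ => (1 : ℝ))) := by
    rw [integrable_indicator_iff hm]
    exact integrableOn_const (by rw [hv]; exact ENNReal.ofReal_ne_top)
  calc ‖∫ y, Fx φ (x, y)‖ ≤ ∫ y, {y : Fin b → ℝ | Sb b (x, y) ∈ Om b ε}.indicator
        (fun _ => (1 : ℝ)) y := norm_integral_le_of_norm_le hi (ae_of_all _ h1)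
    _ = vb b ε * (1 - ‖x‖) ^ b := by
        rw [integral_indicator hm, setIntegral_const, smul_eq_mul, mul_one, Measure.real, hv,
          ENNReal.toReal_ofReal]
        have := (vb_pos (b := b) hε).le
        have h4 : (0 : ℝ) ≤ 1 - ‖x‖ := by linarith
        positivity

/-- the cylinder -/
def Cy (b : ℕ) (ε r : ℝ) : Set (PP b) := {p | p ∈ Om b ε ∧ ‖xc p‖ < r}

lemma measurableSet_Cy {r : ℝ} : MeasurableSet (Cy b ε r) :=
  (isOpen_Om.inter (isOpen_lt continuous_xc.norm continuous_const)).measurableSet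

lemma Cy_sub {r : ℝ} : Cy b ε r ⊆ Om b ε := fun _ hp => hp.1

theorem t3 (hε : 0 < ε) {r : ℝ} (hr0 : 0 < r) (hr1 : r < 1) :
    PLE (Om b ε) (Cy b ε r) (vb b ε * (2 * π * r * (1 - r) ^ b)) := by
  intro φ hφ
  have hcyl : Cy b ε r = Pool.Agent.TH703.HU.cylO (Om b ε) (ball 0 r) := by
    ext p
    simp [Cy, Pool.Agent.TH703.HU.cylO]
  have hF : ContDiff ℝ 1 (Fx φ) := (xL b).contDiff.comp (hφ.c1.comp (Sb b).contDiff)
  have hcF : HasCompactSupport (Fx φ) := (hcs_Sb hφ.cs).comp_left (g := xL b) (map_zero _)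
  have hY : ContDiff ℝ 1 (fun x => ∫ y, Fx φ (x, y)) := contDiff_marg hF hcF
  have h1 : ∫ x in Cy b ε r, Pool.Agent.TH703.Cone.dv φ x =
      ∫ x in ball 0 r, dv2 (fun x => ∫ y, Fx φ (x, y)) x := by
    rw [hcyl]
    exact integral_cylO hφ.c1 hφ.cs hφ.sub measurableSet_ball
  rw [h1, flux hY 0 hr0.le]
  have hnn : 0 ≤ vb b ε * (1 - r) ^ b := by
    have := (vb_pos (b := b) hε).le
    have h4 : (0 : ℝ) ≤ 1 - r := by linarith
    positivity
  have h2 : ∀ θ ∈ Set.uIoc (-π) π, ‖r * (((fun x => ∫ y, Fx φ (x, y)) (pt 0 r θ)).re * Real.cos θ +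
      ((fun x => ∫ y, Fx φ (x, y)) (pt 0 r θ)).im * Real.sin θ)‖ ≤ r * (vb b ε * (1 - r) ^ b) := by
    intro θ _
    have hn : ‖pt 0 r θ‖ = r := by
      unfold pt
      rw [zero_add, norm_mul, ee_norm, mul_one, Complex.norm_real, Real.norm_of_nonneg hr0.le]
    have h3 := norm_marg_le hε hφ (x := pt 0 r θ) (by rw [hn]; exact hr1)
    rw [hn] at h3
    simp only
    generalize ∫ y, Fx φ (pt 0 r θ, y) = z at h3 ⊢
    rw [norm_mul, Real.norm_of_nonneg hr0.le]
    refine mul_le_mul_of_nonneg_left (le_trans ?_ h3) hr0.le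
    have h5 : (z.re * Real.cos θ + z.im * Real.sin θ) ^ 2 ≤ ‖z‖ ^ 2 := by
      rw [Complex.sq_norm, Complex.normSq_apply]
      have := Real.sin_sq_add_cos_sq θ
      nlinarith [sq_nonneg (z.re * Real.sin θ - z.im * Real.cos θ)]
    rw [Real.norm_eq_abs]
    exact abs_le_of_sq_le_sq h5 (norm_nonneg _)
  have h4 := intervalIntegral.norm_integral_le_of_norm_le_const h2
  refine (Real.le_norm_self _).trans (h4.trans (le_of_eq ?_))
  rw [show π - -π = 2 * π by ring, abs_of_pos (by positivity)]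
  ring

end Run7.h717.HV
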