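import Pool.Agent.Run7.h717.HV.T4a

/-!
# MP_65ff7c_an: the lower bound by the rotational field
-/

set_option autoImplicit false

open MeasureTheory Set Metric Filter Topology
open scoped ENNReal Real

noncomputable section

namespace Run7.h717.HV

open Pool.Agent.TH304.MI Pool.Agent.TH959.MI Pool.Agent.TH959.HU Pool.Agent.TH914.HU
open Pool.Agent.TH703.Cone (PLE Tst S_T1 S_T2 Wp)

variable {b : ℕ} {ε : ℝ}

open Real (smoothTransition)

/-- the cutoff -/
def Psi (ε r₀ R₁ n : ℝ) (p : PP b) : ℝ :=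
  smoothTransition (n * (‖xc p‖ ^ 2 - r₀ ^ 2) - 1) * smoothTransition (n * (R₁ ^ 2 - ‖xc p‖ ^ 2) - 1) *
    smoothTransition (n * (ε ^ 2 * (1 - ‖xc p‖) ^ 2 - ‖yE p‖ ^ 2) - 1)

/-- the factor of the field -/
def hh (ε : ℝ) (u : ℂ) (σ r₀ R₁ n : ℝ) (p : PP b) : ℝ :=
  Psi ε r₀ R₁ n p * (chi ((xc p * u).im / (σ * ‖xc p‖)) / ‖xc p‖)

/-- the generator of the rotations -/
def rot (p : PP b) : PP b := J b (Complex.I * xc p)

/-- the field -/
def FF (ε : ℝ) (u : ℂ) (σ r₀ R₁ n : ℝ) (p : PP b) : PP b := hh ε u σ r₀ R₁ n p • rot p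

lemma Psi_nonneg (r₀ R₁ n : ℝ) (p : PP b) : 0 ≤ Psi ε r₀ R₁ n p :=
  mul_nonneg (mul_nonneg (Real.smoothTransition.nonneg _) (Real.smoothTransition.nonneg _))
    (Real.smoothTransition.nonneg _)

lemma Psi_le (r₀ R₁ n : ℝ) (p : PP b) : Psi ε r₀ R₁ n p ≤ 1 := by
  unfold Psi
  have h1 := Real.smoothTransition.le_one (n * (‖xc p‖ ^ 2 - r₀ ^ 2) - 1)
  have h2 := Real.smoothTransition.le_one (n * (R₁ ^ 2 - ‖xc p‖ ^ 2) - 1)
  have h3 := Real.smoothTransition.le_one (n * (ε ^ 2 * (1 - ‖xc p‖) ^ 2 - ‖yE p‖ ^ 2) - 1)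
  have h4 := Real.smoothTransition.nonneg (n * (‖xc p‖ ^ 2 - r₀ ^ 2) - 1)
  have h5 := Real.smoothTransition.nonneg (n * (R₁ ^ 2 - ‖xc p‖ ^ 2) - 1)
  have h6 := Real.smoothTransition.nonneg (n * (ε ^ 2 * (1 - ‖xc p‖) ^ 2 - ‖yE p‖ ^ 2) - 1)
  exact mul_le_one₀ (mul_le_one₀ h1 h5 h2) h6 h3

lemma Psi_ne {r₀ R₁ n : ℝ} {p : PP b} (h : Psi ε r₀ R₁ n p ≠ 0) :
    1 ≤ n * (‖xc p‖ ^ 2 - r₀ ^ 2) ∧ 1 ≤ n * (R₁ ^ 2 - ‖xc p‖ ^ 2) ∧
      1 ≤ n * (ε ^ 2 * (1 - ‖xc p‖) ^ 2 - ‖yE p‖ ^ 2) := by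
  unfold Psi at h
  rw [mul_ne_zero_iff, mul_ne_zero_iff] at h
  obtain ⟨⟨h1, h2⟩, h3⟩ := h
  refine ⟨?_, ?_, ?_⟩
  · by_contra hc
    exact h1 (Real.smoothTransition.zero_of_nonpos (by linarith [not_le.1 hc]))
  · by_contra hc
    exact h2 (Real.smoothTransition.zero_of_nonpos (by linarith [not_le.1 hc]))
  · by_contra hc
    exact h3 (Real.smoothTransition.zero_of_nonpos (by linarith [not_le.1 hc]))

lemma Psi_zero {r₀ R₁ n : ℝ} (hn : 0 ≤ n) (hR₁ : 0 ≤ R₁) {p : PP b}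
    (h : ‖xc p‖ ≤ r₀ ∨ R₁ ≤ ‖xc p‖) : Psi ε r₀ R₁ n p = 0 := by
  unfold Psi
  rcases h with h | h
  · have h1 : ‖xc p‖ ^ 2 ≤ r₀ ^ 2 := pow_le_pow_left₀ (norm_nonneg _) h 2
    rw [Real.smoothTransition.zero_of_nonpos (x := n * (‖xc p‖ ^ 2 - r₀ ^ 2) - 1) (by nlinarith)]
    simp
  · have h1 : R₁ ^ 2 ≤ ‖xc p‖ ^ 2 := pow_le_pow_left₀ hR₁ h 2
    rw [Real.smoothTransition.zero_of_nonpos (x := n * (R₁ ^ 2 - ‖xc p‖ ^ 2) - 1) (by nlinarith)]
    simp

lemma contDiff_xc : ContDiff ℝ 1 (xc : PP b → ℂ) := (xL b).contDiff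

lemma contDiff_yE_sq : ContDiff ℝ 1 (fun p : PP b => ‖yE p‖ ^ 2) := by
  have h : (fun p : PP b => ‖yE p‖ ^ 2) = fun p => ‖p‖ ^ 2 - ‖xc p‖ ^ 2 := by
    funext p
    rw [norm_sq]
    ring
  rw [h]
  exact (contDiff_norm_sq ℝ).sub ((contDiff_norm_sq ℝ).comp contDiff_xc)

lemma contDiff_hh {u : ℂ} {σ r₀ R₁ n : ℝ} (hσ : 0 < σ) : ContDiff ℝ 1
    (hh ε u σ r₀ R₁ n : PP b → ℝ) := by
  rw [contDiff_iff_contDiffAt]
  intro p
  by_cases h : xc p = 0
  · have h1 : ∀ᶠ q in 𝓝 p, hh ε u σ r₀ R₁ n q = 0 := by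
      have hc : Continuous fun q : PP b => n * (‖xc q‖ ^ 2 - r₀ ^ 2) - 1 := by
        have := continuous_xc (b := b)
        fun_prop
      have h0 : n * (‖xc p‖ ^ 2 - r₀ ^ 2) - 1 < 0 ∨ 0 ≤ n * (‖xc p‖ ^ 2 - r₀ ^ 2) - 1 :=
        lt_or_ge _ _
      rcases h0 with h0 | h0
      · filter_upwards [hc.continuousAt.eventually_lt_const h0] with q hq
        unfold hh Psi
        rw [Real.smoothTransition.zero_of_nonpos hq.le]
        simp
      · -- the case of negative `n`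
        rw [h, norm_zero] at h0
        have hn : n < 0 := by
          by_contra hn
          nlinarith [not_lt.1 hn, sq_nonneg r₀]
        have hc2 : Continuous fun q : PP b => n * (R₁ ^ 2 - ‖xc q‖ ^ 2) - 1 := by
          have := continuous_xc (b := b)
          fun_prop
        have h2 : n * (R₁ ^ 2 - ‖xc p‖ ^ 2) - 1 < 0 := by
          rw [h, norm_zero]
          nlinarith [sq_nonneg R₁]
        filter_upwards [hc2.continuousAt.eventually_lt_const h2] with q hq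
        unfold hh Psi
        rw [Real.smoothTransition.zero_of_nonpos hq.le]
        simp
    exact contDiffAt_const.congr_of_eventuallyEq h1
  · have hx : ContDiffAt ℝ 1 (fun q : PP b => ‖xc q‖) p := contDiff_xc.contDiffAt.norm ℝ h
    have hn : ‖xc p‖ ≠ 0 := norm_ne_zero_iff.2 h
    have hy := (contDiff_yE_sq (b := b)).contDiffAt (x := p)
    have hS : ∀ {f : PP b → ℝ}, ContDiffAt ℝ 1 f p → ContDiffAt ℝ 1 (fun q => smoothTransition (f q)) p :=
      fun {f} hf => (Real.smoothTransition.contDiff (n := 1)).contDiffAt.comp p hf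
    have hP : ContDiffAt ℝ 1 (Psi ε r₀ R₁ n : PP b → ℝ) p := by
      unfold Psi
      refine (ContDiffAt.mul (hS ?_) (hS ?_)).mul (hS ?_)
      · exact (contDiffAt_const.mul ((hx.pow 2).sub contDiffAt_const)).sub contDiffAt_const
      · exact (contDiffAt_const.mul (contDiffAt_const.sub (hx.pow 2))).sub contDiffAt_const
      · exact (contDiffAt_const.mul ((contDiffAt_const.mul
          ((contDiffAt_const.sub hx).pow 2)).sub hy)).sub contDiffAt_const
    unfold hh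
    refine hP.mul (ContDiffAt.div ?_ hx hn)
    refine chi_contDiff.contDiffAt.comp p (ContDiffAt.div ?_ (contDiffAt_const.mul hx) ?_)
    · exact Complex.imCLM.contDiff.contDiffAt.comp p
        ((contDiff_xc.mul contDiff_const).contDiffAt)
    · positivity

lemma rot_eq : (rot : PP b → PP b) = (J b).comp ((ContinuousLinearMap.mul ℝ ℂ Complex.I).comp
    (xL b)) := rfl

lemma contDiff_rot : ContDiff ℝ 1 (rot : PP b → PP b) := by
  rw [rot_eq]
  exact ContinuousLinearMap.contDiff _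

lemma norm_rot (p : PP b) : ‖rot p‖ = ‖xc p‖ := by
  unfold rot
  rw [norm_J, norm_mul, Complex.norm_I, one_mul]

lemma dv_rot (p : PP b) : Pool.Agent.TH703.Cone.dv (rot : PP b → PP b) p = 0 := by
  have h := dv_eq (b := b) (F := fun q => Complex.I * q.1)
    (by fun_prop) p
  have h2 : Pool.Agent.TH703.Cone.dv (rot : PP b → PP b) p =
      dv (fun p => J b ((fun q : ℂ × (Fin b → ℝ) => Complex.I * q.1) (T b p))) p := rfl
  rw [h2, h, Lam_apply, G1]
  have h3 : HasFDerivAt (fun q : ℂ × (Fin b → ℝ) => Complex.I * q.1)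
      ((ContinuousLinearMap.mul ℝ ℂ Complex.I).comp
        (ContinuousLinearMap.fst ℝ ℂ (Fin b → ℝ))) (T b p) :=
    ((ContinuousLinearMap.mul ℝ ℂ Complex.I).comp
        (ContinuousLinearMap.fst ℝ ℂ (Fin b → ℝ))).hasFDerivAt
  rw [h3.fderiv]
  simp

lemma norm_FF_le {u : ℂ} {σ r₀ R₁ n : ℝ} (p : PP b) : ‖FF ε u σ r₀ R₁ n p‖ ≤ 1 := by
  unfold FF hh
  rw [norm_smul, norm_rot, norm_mul, norm_div, norm_norm,
    Real.norm_of_nonneg (Psi_nonneg r₀ R₁ n p)]
  have h1 := Psi_le (ε := ε) r₀ R₁ n p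
  have h2 := Psi_nonneg (ε := ε) r₀ R₁ n p
  have h3 := chi_abs ((xc p * u).im / (σ * ‖xc p‖))
  rw [← Real.norm_eq_abs] at h3
  by_cases h : ‖xc p‖ = 0
  · rw [h]
    simp
  · rw [mul_assoc, div_mul_cancel₀ _ h]
    exact mul_le_one₀ h1 (norm_nonneg _) h3

lemma tsupport_FF {u : ℂ} {σ r₀ R₁ n : ℝ} (hε : 0 < ε) (hn : 0 < n) (hR : 0 < R₁)
    (hR₁ : R₁ < 1) : tsupport (FF ε u σ r₀ R₁ n : PP b → PP b) ⊆ Om b ε := by
  have hc : IsClosed {p : PP b | ‖xc p‖ ≤ R₁ ∧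
      1 ≤ n * (ε ^ 2 * (1 - ‖xc p‖) ^ 2 - ‖yE p‖ ^ 2)} := by
    have h1 := continuous_xc (b := b)
    have h2 := continuous_yE (b := b)
    have h3 : Continuous fun p : PP b => n * (ε ^ 2 * (1 - ‖xc p‖) ^ 2 - ‖yE p‖ ^ 2) := by
      fun_prop
    exact (isClosed_le h1.norm continuous_const).inter (isClosed_le continuous_const h3)
  have hs : Function.support (FF ε u σ r₀ R₁ n : PP b → PP b) ⊆ {p : PP b | ‖xc p‖ ≤ R₁ ∧
      1 ≤ n * (ε ^ 2 * (1 - ‖xc p‖) ^ 2 - ‖yE p‖ ^ 2)} := by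
    intro p hp
    have h1 : Psi ε r₀ R₁ n p ≠ 0 := by
      intro h0
      apply hp
      unfold FF hh
      rw [h0, zero_mul, zero_smul]
    obtain ⟨-, h2, h3⟩ := Psi_ne h1
    refine ⟨?_, h3⟩
    by_contra hc
    have h4 : R₁ ^ 2 ≤ ‖xc p‖ ^ 2 := pow_le_pow_left₀ hR.le (not_le.1 hc).le 2
    nlinarith
  refine (closure_minimal hs hc).trans ?_
  rintro p ⟨h1, h2⟩
  change ‖xc p‖ + ‖yE p‖ / ε < 1
  have h3 : ‖yE p‖ ^ 2 < (ε * (1 - ‖xc p‖)) ^ 2 := by
    rw [mul_pow]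
    by_contra hcon
    have h4 := not_lt.1 hcon
    nlinarith
  have h4 : ‖yE p‖ < ε * (1 - ‖xc p‖) :=
    lt_of_pow_lt_pow_left₀ 2 (mul_nonneg hε.le (by linarith)) h3
  have h5 : ‖yE p‖ / ε < 1 - ‖xc p‖ := by
    rw [div_lt_iff₀ hε]
    linarith
  linarith

lemma tst_FF {u : ℂ} {σ r₀ R₁ n : ℝ} (hε : 0 < ε) (hσ : 0 < σ) (hn : 0 < n) (hR : 0 < R₁)
    (hR₁ : R₁ < 1) : Tst (Om b ε) (FF ε u σ r₀ R₁ n : PP b → PP b) where
  c1 := (contDiff_hh hσ).smul contDiff_rot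
  cs := by
    refine Metric.isCompact_of_isClosed_isBounded (isClosed_tsupport _) ?_
    exact (isBounded_Om hε).subset (tsupport_FF hε hn hR hR₁)
  sub := tsupport_FF hε hn hR hR₁
  le := norm_FF_le

/-- the derivative of the factor along the rotations -/
lemma fderiv_hh {u : ℂ} {σ r₀ R₁ n : ℝ} (hσ : 0 < σ) (p : PP b) :
    fderiv ℝ (hh ε u σ r₀ R₁ n) p (rot p) = Psi ε r₀ R₁ n p *
      (chi' ((xc p * u).im / (σ * ‖xc p‖)) * (xc p * u).re / (σ * ‖xc p‖ ^ 2)) := by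
  -- the curve
  obtain ⟨γ, hγ⟩ : ∃ γ : ℝ → PP b, γ = fun t : ℝ => Sb b (Complex.exp (t * Complex.I) * xc p, yc p) :=
    ⟨_, rfl⟩
  have hexp : HasDerivAt (fun t : ℝ => Complex.exp (t * Complex.I)) Complex.I 0 := by
    have h1 : HasDerivAt (fun t : ℝ => (t : ℂ) * Complex.I) Complex.I 0 := by
      have h2 : HasDerivAt (fun t : ℝ => (t : ℂ)) 1 0 := (hasDerivAt_id (0 : ℝ)).ofReal_comp
      simpa using h2.mul_const Complex.I
    have h3 := h1.cexp
    simpa using h3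
  have hγ0 : γ 0 = p := by
    rw [hγ]
    simp only [Complex.ofReal_zero, zero_mul, Complex.exp_zero, one_mul]
    exact Sb_T p
  have hγd : HasDerivAt γ (rot p) 0 := by
    have h1 : HasDerivAt (fun t : ℝ => (Complex.exp (t * Complex.I) * xc p, yc p))
        (Complex.I * xc p, (0 : Fin b → ℝ)) 0 :=
      (hexp.mul_const (xc p)).prodMk (hasDerivAt_const _ _)
    have h2 := (Sb b).hasFDerivAt.comp_hasDerivAt (0 : ℝ) h1
    have h3 : Sb b (Complex.I * xc p, (0 : Fin b → ℝ)) = rot p := by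
      unfold rot
      ext i
      refine Fin.cases ?_ (fun j => ?_) i
      · rfl
      · refine Fin.cases ?_ (fun k => ?_) j
        · rfl
        · rfl
    rw [h3] at h2
    rw [hγ]
    exact h2
  have h1 : HasDerivAt (fun t => hh ε u σ r₀ R₁ n (γ t))
      (fderiv ℝ (hh ε u σ r₀ R₁ n) p (rot p)) 0 := by
    have h2 : HasFDerivAt (hh ε u σ r₀ R₁ n) (fderiv ℝ (hh ε u σ r₀ R₁ n) p) (γ 0) := by
      rw [hγ0]
      exact ((contDiff_hh hσ).differentiable (by norm_num) p).hasFDerivAt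
    exact h2.comp_hasDerivAt (0 : ℝ) hγd
  have hxγ : ∀ t, xc (γ t) = Complex.exp (t * Complex.I) * xc p := fun t => by rw [hγ]; rfl
  have hyγ : ∀ t, yE (γ t) = yE p := fun t => by rw [hγ]; rfl
  have hnγ : ∀ t, ‖xc (γ t)‖ = ‖xc p‖ := fun t => by
    rw [hxγ, norm_mul, Complex.norm_exp_ofReal_mul_I, one_mul]
  have h3 : (fun t : ℝ => hh ε u σ r₀ R₁ n (γ t)) = fun t : ℝ => Psi ε r₀ R₁ n p *
      (chi ((Complex.exp (t * Complex.I) * xc p * u).im / (σ * ‖xc p‖)) / ‖xc p‖) := by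
    funext t
    unfold hh Psi
    rw [hnγ, hyγ, hxγ]
  have h4 : HasDerivAt (fun t : ℝ => (Complex.exp (t * Complex.I) * xc p * u).im)
      (xc p * u).re 0 := by
    have h5 := (hexp.mul_const (xc p * u))
    have h6 := Complex.imCLM.hasFDerivAt.comp_hasDerivAt (0 : ℝ) h5
    refine (h6.congr_deriv ?_).congr_of_eventuallyEq (Eventually.of_forall fun t => ?_)
    · simp
    · simp [mul_assoc]
  have h5 : HasDerivAt (fun t : ℝ => Psi ε r₀ R₁ n p *
      (chi ((Complex.exp (t * Complex.I) * xc p * u).im / (σ * ‖xc p‖)) / ‖xc p‖))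
      (Psi ε r₀ R₁ n p * (chi' ((xc p * u).im / (σ * ‖xc p‖)) *
        ((xc p * u).re / (σ * ‖xc p‖)) / ‖xc p‖)) 0 := by
    refine HasDerivAt.const_mul _ (HasDerivAt.div_const ?_ _)
    have h6 := (chi_deriv ((Complex.exp ((0 : ℝ) * Complex.I) * xc p * u).im /
      (σ * ‖xc p‖))).comp (0 : ℝ) (h4.div_const (σ * ‖xc p‖))
    simp only [Complex.ofReal_zero, zero_mul, Complex.exp_zero, one_mul] at h6
    exact h6
  rw [h3] at h1
  rw [h1.unique h5]
  by_cases h : ‖xc p‖ = 0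
  · rw [h]
    simp
  · congr 1
    field_simp

lemma dv_FF {u : ℂ} {σ r₀ R₁ n : ℝ} (hσ : 0 < σ) (p : PP b) :
    Pool.Agent.TH703.Cone.dv (FF ε u σ r₀ R₁ n) p = Psi ε r₀ R₁ n p *
      (chi' ((xc p * u).im / (σ * ‖xc p‖)) * (xc p * u).re / (σ * ‖xc p‖ ^ 2)) := by
  have h := Pool.Agent.TH703.Cone.Div.dv_smul (g := hh ε u σ r₀ R₁ n)
    (φ := (rot : PP b → PP b)) (x := p)
    ((contDiff_hh hσ).differentiable (by norm_num) p)
    (contDiff_rot.differentiable (by norm_num) p)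
  rw [dv_rot, mul_zero, zero_add, fderiv_hh hσ] at h
  exact h

lemma dd_le {u : ℂ} (hu : ‖u‖ = 1) {σ r₀ R₁ : ℝ} (hσ : 0 < σ) (hr₀ : 0 < r₀) (x : ℂ) :
    dd u σ r₀ R₁ 1 x ≤ (Wp u σ r₀ R₁).indicator (fun _ => 3 / (2 * σ * r₀)) x := by
  by_cases hW : x ∈ Wp u σ r₀ R₁
  · rw [indicator_of_mem hW]
    unfold dd
    by_cases hx : x ∈ {x : ℂ | r₀ < ‖x‖ ∧ ‖x‖ < R₁}
    · rw [indicator_of_mem hx]
      have hxr : r₀ < ‖x‖ := hx.1
      have hxp : 0 < ‖x‖ := hr₀.trans hxr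
      have h1 : max 0 (1 * (x * u).re) ≤ ‖x‖ := by
        refine max_le hxp.le ?_
        rw [one_mul]
        refine (Complex.re_le_norm _).trans (le_of_eq ?_)
        rw [norm_mul, hu, mul_one]
      have h2 := chi'_le ((x * u).im / (σ * ‖x‖))
      have h3 := chi'_nonneg ((x * u).im / (σ * ‖x‖))
      rw [div_le_div_iff₀ (by positivity) (by positivity)]
      have h4 : chi' ((x * u).im / (σ * ‖x‖)) * max 0 (1 * (x * u).re) ≤ 3 / 2 * ‖x‖ :=
        mul_le_mul h2 h1 (le_max_left _ _) (by norm_num)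
      calc chi' ((x * u).im / (σ * ‖x‖)) * max 0 (1 * (x * u).re) * (2 * σ * r₀)
          ≤ 3 / 2 * ‖x‖ * (2 * σ * r₀) := mul_le_mul_of_nonneg_right h4 (by positivity)
        _ = 3 * (σ * (‖x‖ * r₀)) := by ring
        _ ≤ 3 * (σ * (‖x‖ * ‖x‖)) := by gcongr
        _ = 3 * (σ * ‖x‖ ^ 2) := by ring
    · rw [indicator_of_notMem hx]
      positivity
  · rw [indicator_of_notMem hW]
    refine le_of_eq ?_
    unfold dd
    by_cases hx : x ∈ {x : ℂ | r₀ < ‖x‖ ∧ ‖x‖ < R₁}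
    · rw [indicator_of_mem hx]
      have hxr : r₀ < ‖x‖ := hx.1
      have hxp : 0 < ‖x‖ := hr₀.trans hxr
      by_cases h1 : 0 < (x * u).re
      · have h2 : ¬ |(x * u).im| ≤ σ * ‖x‖ := fun h => hW ⟨hxr.le, (show ‖x‖ < R₁ from hx.2).le,
          h1, h⟩
        rw [chi'_zero]
        · simp
        · rw [abs_div, abs_of_pos (by positivity : 0 < σ * ‖x‖), le_div_iff₀ (by positivity),
            one_mul]
          exact (not_le.1 h2).le
      · rw [one_mul, max_eq_left (not_lt.1 h1)]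
        simp
    · rw [indicator_of_notMem hx]

lemma dd_neg {u : ℂ} {σ r₀ R₁ : ℝ} (x : ℂ) : dd u σ r₀ R₁ (-1) x = dd u σ r₀ R₁ 1 (-x) := by
  have hch : ∀ t, chi' (-t) = chi' t := fun t => by
    unfold chi'
    rw [neg_sq]
  unfold dd
  by_cases hx : r₀ < ‖x‖ ∧ ‖x‖ < R₁
  · rw [indicator_of_mem (show x ∈ {x : ℂ | r₀ < ‖x‖ ∧ ‖x‖ < R₁} from hx),
      indicator_of_mem (show -x ∈ {x : ℂ | r₀ < ‖x‖ ∧ ‖x‖ < R₁} from by
        change r₀ < ‖-x‖ ∧ ‖-x‖ < R₁
        rw [norm_neg]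
        exact hx), norm_neg, neg_mul x u, Complex.neg_im, Complex.neg_re, neg_div, hch, one_mul,
        neg_one_mul]
  · rw [indicator_of_notMem (show x ∉ {x : ℂ | r₀ < ‖x‖ ∧ ‖x‖ < R₁} from hx),
      indicator_of_notMem (show -x ∉ {x : ℂ | r₀ < ‖x‖ ∧ ‖x‖ < R₁} from fun h => hx (by
        change r₀ < ‖-x‖ ∧ ‖-x‖ < R₁ at h
        rwa [norm_neg] at h))]

lemma dd_le' {u : ℂ} (hu : ‖u‖ = 1) {σ r₀ R₁ : ℝ} (hσ : 0 < σ) (hr₀ : 0 < r₀) (x : ℂ) :
    dd u σ r₀ R₁ 1 x ≤ 3 / (2 * σ * r₀) := by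
  refine (dd_le hu hσ hr₀ x).trans ?_
  refine indicator_le_self' (fun _ _ => by positivity) x

lemma dv_FF' {u : ℂ} {σ r₀ R₁ n : ℝ} (hσ : 0 < σ) (hR₁ : 0 ≤ R₁) (hn : 0 ≤ n)
    (p : PP b) : Pool.Agent.TH703.Cone.dv (FF ε u σ r₀ R₁ n) p = Psi ε r₀ R₁ n p *
      (dd u σ r₀ R₁ 1 (xc p) - dd u σ r₀ R₁ (-1) (xc p)) := by
  rw [dv_FF hσ]
  by_cases hx : r₀ < ‖xc p‖ ∧ ‖xc p‖ < R₁
  · unfold dd
    rw [indicator_of_mem (show xc p ∈ {x : ℂ | r₀ < ‖x‖ ∧ ‖x‖ < R₁} from hx),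
      indicator_of_mem (show xc p ∈ {x : ℂ | r₀ < ‖x‖ ∧ ‖x‖ < R₁} from hx)]
    congr 1
    rw [← sub_div, ← mul_sub]
    congr 2
    rw [one_mul, neg_one_mul]
    rcases le_total 0 (xc p * u).re with h | h
    · rw [max_eq_right h, max_eq_left (by linarith), sub_zero]
    · rw [max_eq_left h, max_eq_right (by linarith), zero_sub, neg_neg]
  · rw [Psi_zero hn hR₁, zero_mul, zero_mul]
    by_contra hcon
    push Not at hcon
    exact hx hcon

theorem t4 (hε : 0 < ε) {P : ℝ} {A : Set (PP b)} (hA : MeasurableSet A) (hAΩ : A ⊆ Om b ε)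
    (hP : PLE (Om b ε) A P) {u : ℂ} (hu : ‖u‖ = 1) {σ r₀ R₁ : ℝ} (hσ : 0 < σ) (hσ1 : σ ≤ 1)
    (hr₀ : 0 < r₀) (hr : r₀ ≤ R₁) (hR₁ : R₁ < 1) :
    vb b ε * (2 * ∫ ρ in r₀..R₁, (1 - ρ) ^ b) ≤ P + 3 / (2 * σ * r₀) *
      (volume.real {z | z ∈ Om b ε \ A ∧ xc z ∈ Wp u σ r₀ R₁} +
        volume.real {z | z ∈ A ∧ -xc z ∈ Wp u σ r₀ R₁}) := by
  obtain ⟨C, hC⟩ : ∃ C : ℝ, C = 3 / (2 * σ * r₀) := ⟨_, rfl⟩
  have hC0 : 0 < C := by rw [hC]; positivity
  have hΩm : MeasurableSet (Om b ε) := isOpen_Om.measurableSet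
  have hΩf : volume (Om b ε) ≠ ⊤ := by
    rw [volume_Om hε]
    exact ENNReal.ofReal_ne_top
  have hAf : volume A ≠ ⊤ := ((measure_mono hAΩ).trans_lt hΩf.lt_top).ne
  obtain ⟨Dp, hDp⟩ : ∃ Dp : PP b → ℝ, Dp = fun p => dd u σ r₀ R₁ 1 (xc p) := ⟨_, rfl⟩
  obtain ⟨Dm, hDm⟩ : ∃ Dm : PP b → ℝ, Dm = fun p => dd u σ r₀ R₁ (-1) (xc p) := ⟨_, rfl⟩
  have hDpm : Measurable Dp := by
    rw [hDp]
    exact (measurable_dd u σ r₀ R₁ 1).comp continuous_xc.measurable
  have hDmm : Measurable Dm := by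
    rw [hDm]
    exact (measurable_dd u σ r₀ R₁ (-1)).comp continuous_xc.measurable
  have hDp0 : ∀ p, 0 ≤ Dp p := fun p => by rw [hDp]; exact dd_nonneg hσ _
  have hDm0 : ∀ p, 0 ≤ Dm p := fun p => by rw [hDm]; exact dd_nonneg hσ _
  have hDpC : ∀ p, Dp p ≤ C := fun p => by rw [hDp, hC]; exact dd_le' hu hσ hr₀ _
  have hDmC : ∀ p, Dm p ≤ C := fun p => by
    rw [hDm, hC]
    simp only
    rw [dd_neg]
    exact dd_le' hu hσ hr₀ _
  have hi : ∀ (f : PP b → ℝ) (S : Set (PP b)), Measurable f → volume S ≠ ⊤ →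
      (∀ p, 0 ≤ f p) → (∀ p, f p ≤ C) → IntegrableOn f S := by
    intro f S hf hS h0 h1
    refine Integrable.mono' (g := fun _ => C) (integrableOn_const hS) hf.aestronglyMeasurable
      (ae_of_all _ fun p => ?_)
    rw [Real.norm_of_nonneg (h0 p)]
    exact h1 p
  have hip := hi Dp (Om b ε) hDpm hΩf hDp0 hDpC
  have him := hi Dm (Om b ε) hDmm hΩf hDm0 hDmC
  -- the limit
  have hlim : ∫ p in A, (Dp p - Dm p) ≤ P := by
    have ht : Tendsto (fun k : ℕ => ∫ p in A, Psi ε r₀ R₁ ((k : ℝ) + 1) p * (Dp p - Dm p)) atTop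
        (𝓝 (∫ p in A, (Dp p - Dm p))) := by
      refine tendsto_integral_of_dominated_convergence (fun _ => C) (fun k => ?_)
        (integrableOn_const hAf) (fun k => ae_of_all _ fun p => ?_) ?_
      · have h1 : (fun p => Psi ε r₀ R₁ ((k : ℝ) + 1) p * (Dp p - Dm p)) =
            Pool.Agent.TH703.Cone.dv (FF ε u σ r₀ R₁ ((k : ℝ) + 1)) := by
          funext p
          rw [dv_FF' hσ (hr₀.le.trans hr) (by positivity), hDp, hDm]
        rw [h1]
        exact (Pool.Agent.TH703.Cone.Div.continuous_dv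
          (tst_FF hε hσ (by positivity) (hr₀.trans_le hr) hR₁).c1).aestronglyMeasurable
      · rw [norm_mul, Real.norm_of_nonneg (Psi_nonneg _ _ _ _)]
        have h1 : ‖Dp p - Dm p‖ ≤ C := by
          rw [Real.norm_eq_abs, abs_le]
          constructor <;> linarith [hDp0 p, hDm0 p, hDpC p, hDmC p]
        calc Psi ε r₀ R₁ ((k : ℝ) + 1) p * ‖Dp p - Dm p‖ ≤ 1 * C :=
              mul_le_mul (Psi_le _ _ _ _) h1 (norm_nonneg _) zero_le_one
          _ = C := one_mul C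
      · rw [ae_restrict_iff' hA]
        refine ae_of_all _ fun p hp => ?_
        have hpΩ := hAΩ hp
        by_cases hx : r₀ < ‖xc p‖ ∧ ‖xc p‖ < R₁
        · have h1 : Tendsto (fun k : ℕ => Psi ε r₀ R₁ ((k : ℝ) + 1) p) atTop (𝓝 1) := by
            have hS : ∀ {a : ℝ}, 0 < a → Tendsto (fun k : ℕ => smoothTransition (((k : ℝ) + 1) * a - 1)) atTop
                (𝓝 1) := by
              intro a ha
              refine tendsto_const_nhds.congr' ?_
              obtain ⟨N, hN⟩ := exists_nat_ge (2 / a)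
              filter_upwards [eventually_ge_atTop N] with k hk
              have h2 : (N : ℝ) ≤ k := by exact_mod_cast hk
              rw [Real.smoothTransition.one_of_one_le]
              have h3 : 2 ≤ (N : ℝ) * a := by rwa [div_le_iff₀ ha] at hN
              nlinarith
            have hn := norm_nonneg (xc p)
            have h2 := hS (a := ‖xc p‖ ^ 2 - r₀ ^ 2) (by nlinarith [hx.1])
            have h3 := hS (a := R₁ ^ 2 - ‖xc p‖ ^ 2) (by nlinarith [hx.2])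
            have h4 := hS (a := ε ^ 2 * (1 - ‖xc p‖) ^ 2 - ‖yE p‖ ^ 2) (by
              have h5 : ‖xc p‖ + ‖yE p‖ / ε < 1 := hpΩ
              have h6 : ‖yE p‖ < ε * (1 - ‖xc p‖) := by
                have h7 : ‖yE p‖ / ε < 1 - ‖xc p‖ := by linarith
                rw [div_lt_iff₀ hε] at h7
                linarith
              have h8 := pow_lt_pow_left₀ h6 (norm_nonneg _) two_ne_zero
              rw [mul_pow] at h8
              linarith)
            have h5 := (h2.mul h3).mul h4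
            simpa [Psi] using h5
          simpa using h1.mul_const (Dp p - Dm p)
        · have hx' : xc p ∉ {x : ℂ | r₀ < ‖x‖ ∧ ‖x‖ < R₁} := hx
          have h1 : Dp p = 0 := by
            rw [hDp]
            simp only [dd]
            rw [indicator_of_notMem hx']
          have h2 : Dm p = 0 := by
            rw [hDm]
            simp only [dd]
            rw [indicator_of_notMem hx']
          rw [h1, h2]
          simp
    refine le_of_tendsto' ht fun k => ?_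
    have h1 := hP _ (tst_FF (u := u) (σ := σ) (r₀ := r₀) (R₁ := R₁) (n := (k : ℝ) + 1) hε hσ
      (by positivity) (hr₀.trans_le hr) hR₁)
    refine le_trans (le_of_eq ?_) h1
    refine integral_congr_ae (ae_of_all _ fun p => ?_)
    simp only
    rw [dv_FF' hσ (hr₀.le.trans hr) (by positivity), hDp, hDm]
  -- the total integral
  have htot : ∫ p in Om b ε, Dp p = vb b ε * (2 * ∫ ρ in r₀..R₁, (1 - ρ) ^ b) := by
    rw [integral_eq_lintegral_of_nonneg_ae (ae_of_all _ hDp0) hDpm.aestronglyMeasurable, hDp,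
      lint_dd hε hu hσ hσ1 hr₀ hr hR₁, ENNReal.toReal_ofReal]
    have h1 : 0 ≤ ∫ ρ in r₀..R₁, (1 - ρ) ^ b := by
      refine intervalIntegral.integral_nonneg hr fun x hx => ?_
      have : 0 ≤ 1 - x := by linarith [hx.2]
      positivity
    have := (vb_pos (b := b) hε).le
    positivity
  have hWm : MeasurableSet (Wp u σ r₀ R₁) := by
    refine (measurableSet_le measurable_const measurable_norm).inter
      ((measurableSet_le measurable_norm measurable_const).inter ?_)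
    refine (measurableSet_lt measurable_const
      (Complex.measurable_re.comp (measurable_id.mul_const u))).inter ?_
    exact measurableSet_le ((Complex.measurable_im.comp (measurable_id.mul_const u)).norm)
      (measurable_norm.const_mul σ)
  have h1 : ∫ p in Om b ε \ A, Dp p ≤
      C * volume.real {z | z ∈ Om b ε \ A ∧ xc z ∈ Wp u σ r₀ R₁} := by
    have hWm' : MeasurableSet {z : PP b | xc z ∈ Wp u σ r₀ R₁} :=
      continuous_xc.measurable hWm
    calc ∫ p in Om b ε \ A, Dp p ≤ ∫ p in Om b ε \ A,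
          {z : PP b | xc z ∈ Wp u σ r₀ R₁}.indicator (fun _ => C) p := by
          refine setIntegral_mono (hip.mono_set sdiff_subset) ?_ fun p => ?_
          · exact (integrableOn_const
              ((measure_mono sdiff_subset).trans_lt hΩf.lt_top).ne).indicator hWm'
          · rw [hDp, hC]
            exact dd_le hu hσ hr₀ (xc p)
      _ = C * volume.real {z | z ∈ Om b ε \ A ∧ xc z ∈ Wp u σ r₀ R₁} := by
          rw [setIntegral_indicator hWm', setIntegral_const, smul_eq_mul, mul_comm]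
          rfl
  have h2 : ∫ p in A, Dm p ≤ C * volume.real {z | z ∈ A ∧ -xc z ∈ Wp u σ r₀ R₁} := by
    have hWm' : MeasurableSet {z : PP b | -xc z ∈ Wp u σ r₀ R₁} :=
      continuous_xc.neg.measurable hWm
    calc ∫ p in A, Dm p ≤ ∫ p in A,
          {z : PP b | -xc z ∈ Wp u σ r₀ R₁}.indicator (fun _ => C) p := by
          refine setIntegral_mono (him.mono_set hAΩ) ?_ fun p => ?_
          · exact (integrableOn_const hAf).indicator hWm'
          · rw [hDm, hC]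
            simp only
            rw [dd_neg]
            exact dd_le hu hσ hr₀ (-xc p)
      _ = C * volume.real {z | z ∈ A ∧ -xc z ∈ Wp u σ r₀ R₁} := by
          rw [setIntegral_indicator hWm', setIntegral_const, smul_eq_mul, mul_comm]
          rfl
  have h3 : ∫ p in Om b ε, Dp p = (∫ p in A, Dp p) + ∫ p in Om b ε \ A, Dp p := by
    rw [← setIntegral_union disjoint_sdiff_self_right (hΩm.diff hA) (hip.mono_set hAΩ)
      (hip.mono_set sdiff_subset), union_sdiff_cancel hAΩ]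
  have h4 : ∫ p in A, (Dp p - Dm p) = (∫ p in A, Dp p) - ∫ p in A, Dm p :=
    integral_sub (hip.mono_set hAΩ) (him.mono_set hAΩ)
  rw [← hC]
  rw [h4] at hlim
  rw [htot] at h3
  linarith

end Run7.h717.HV
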