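import Pool.Agent.Run7.h717.HV.T7

/-!
# MP_65ff7c_an: the angular step function, and the integral of the divergence
-/

set_option autoImplicit false

open MeasureTheory Set Metric Filter Topology
open scoped ENNReal Real

noncomputable section

namespace Run7.h717.HV

open Pool.Agent.TH304.MI Pool.Agent.TH959.MI Pool.Agent.TH959.HU Pool.Agent.TH914.HU
open Pool.Agent.TH703.Cone (PLE Tst S_T1 S_T2 Wp)

/-! ### the step function -/

/-- the derivative of the step -/
def chi' (t : ℝ) : ℝ := 3 / 2 * max 0 (1 - t ^ 2)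

/-- the step -/
def chi (t : ℝ) : ℝ := ∫ s in (0 : ℝ)..t, chi' s

lemma chi'_cont : Continuous chi' := by
  unfold chi'
  fun_prop

lemma chi'_nonneg (t : ℝ) : 0 ≤ chi' t := by
  unfold chi'
  positivity

lemma chi'_le (t : ℝ) : chi' t ≤ 3 / 2 := by
  unfold chi'
  have : max 0 (1 - t ^ 2) ≤ 1 := max_le zero_le_one (by nlinarith [sq_nonneg t])
  linarith

lemma chi'_zero {t : ℝ} (h : 1 ≤ |t|) : chi' t = 0 := by
  unfold chi'
  have h1 : 1 ≤ t ^ 2 := by
    rw [← sq_abs]
    nlinarith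
  rw [max_eq_left (by linarith), mul_zero]

lemma chi_deriv (t : ℝ) : HasDerivAt chi (chi' t) t :=
  intervalIntegral.integral_hasDerivAt_right (chi'_cont.intervalIntegrable _ _)
    (chi'_cont.stronglyMeasurableAtFilter _ _) chi'_cont.continuousAt

lemma chi_contDiff : ContDiff ℝ 1 chi := by
  rw [contDiff_one_iff_deriv]
  refine ⟨fun t => (chi_deriv t).differentiableAt, ?_⟩
  have : deriv chi = chi' := funext fun t => (chi_deriv t).deriv
  rw [this]
  exact chi'_cont

lemma chi_one_aux : chi 1 = 1 := by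
  have h1 : chi 1 = ∫ s in (0 : ℝ)..1, (3 / 2 - 3 / 2 * s ^ 2) := by
    refine intervalIntegral.integral_congr fun s hs => ?_
    rw [uIcc_of_le zero_le_one] at hs
    have h2 : 0 ≤ 1 - s ^ 2 := by nlinarith [hs.1, hs.2]
    simp only [chi']
    rw [max_eq_right h2]
    ring
  rw [h1, intervalIntegral.integral_sub (by simp) (Continuous.intervalIntegrable (by fun_prop) _ _),
    intervalIntegral.integral_const_mul, integral_pow]
  simp
  norm_num

lemma chi_one {t : ℝ} (h : 1 ≤ t) : chi t = 1 := by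
  have h1 : chi t = chi 1 + ∫ s in (1 : ℝ)..t, chi' s :=
    (intervalIntegral.integral_add_adjacent_intervals (chi'_cont.intervalIntegrable _ _)
      (chi'_cont.intervalIntegrable _ _)).symm
  have h2 : ∫ s in (1 : ℝ)..t, chi' s = ∫ s in (1 : ℝ)..t, (0 : ℝ) := by
    refine intervalIntegral.integral_congr fun s hs => ?_
    rw [uIcc_of_le h] at hs
    exact chi'_zero (by rw [abs_of_nonneg (by linarith [hs.1])]; exact hs.1)
  rw [h1, h2, chi_one_aux]
  simp

lemma chi_neg (t : ℝ) : chi (-t) = - chi t := by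
  have h : ∀ s, chi' (-s) = chi' s := fun s => by
    unfold chi'
    rw [neg_sq]
  have h1 : ∫ s in (0 : ℝ)..(-t), chi' s = ∫ s in t..0, chi' (-s) := by
    rw [intervalIntegral.integral_comp_neg]
    simp
  unfold chi
  rw [h1]
  simp_rw [h]
  rw [intervalIntegral.integral_symm]

lemma chi_mono : Monotone chi :=
  monotone_of_hasDerivAt_nonneg chi_deriv chi'_nonneg

lemma chi_abs (t : ℝ) : |chi t| ≤ 1 := by
  rw [abs_le]
  constructor
  · have h1 : chi (min t (-1)) = -1 := by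
      have h2 : min t (-1) = -(max (-t) 1) := by
        rcases le_total t (-1) with h | h
        · rw [min_eq_left h, max_eq_left (by linarith), neg_neg]
        · rw [min_eq_right h, max_eq_right (by linarith)]
      rw [h2, chi_neg, chi_one (le_max_right _ _)]
    rw [← h1]
    exact chi_mono (min_le_left _ _)
  · rw [← chi_one (le_max_right t 1)]
    exact chi_mono (le_max_left _ _)

/-! ### the parts of the divergence -/

/-- the positive (`s = 1`) and negative (`s = -1`) parts of the divergence -/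
def dd (u : ℂ) (σ r₀ R₁ s : ℝ) : ℂ → ℝ :=
  {x : ℂ | r₀ < ‖x‖ ∧ ‖x‖ < R₁}.indicator fun x =>
    chi' ((x * u).im / (σ * ‖x‖)) * max 0 (s * (x * u).re) / (σ * ‖x‖ ^ 2)

lemma measurableSet_ann (r₀ R₁ : ℝ) : MeasurableSet {x : ℂ | r₀ < ‖x‖ ∧ ‖x‖ < R₁} :=
  (measurableSet_lt measurable_const measurable_norm).inter
    (measurableSet_lt measurable_norm measurable_const)

lemma measurable_dd (u : ℂ) (σ r₀ R₁ s : ℝ) : Measurable (dd u σ r₀ R₁ s) := by
  unfold dd
  refine Measurable.indicator ?_ (measurableSet_ann r₀ R₁)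
  have h1 := chi'_cont.measurable
  have h2 : Measurable fun x : ℂ => (x * u).im / (σ * ‖x‖) :=
    (Complex.measurable_im.comp (measurable_id.mul_const u)).div (measurable_norm.const_mul σ)
  have h3 : Measurable fun x : ℂ => max 0 (s * (x * u).re) :=
    measurable_const.max ((Complex.measurable_re.comp (measurable_id.mul_const u)).const_mul s)
  exact ((h1.comp h2).mul h3).div ((measurable_norm.pow_const 2).const_mul σ)

lemma dd_nonneg {u : ℂ} {σ r₀ R₁ s : ℝ} (hσ : 0 < σ) (x : ℂ) : 0 ≤ dd u σ r₀ R₁ s x := by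
  unfold dd
  refine indicator_nonneg (fun x _ => ?_) x
  have := chi'_nonneg ((x * u).im / (σ * ‖x‖))
  positivity

/-- the angular part -/
def kk (σ θ : ℝ) : ℝ := chi' (Real.sin θ / σ) * max 0 (Real.cos θ) / σ

lemma kk_cont (σ : ℝ) : Continuous (kk σ) := by
  unfold kk
  have := chi'_cont
  fun_prop

lemma kk_int {σ : ℝ} (hσ : 0 < σ) (hσ1 : σ ≤ 1) : ∫ θ in (-π)..π, kk σ θ = 2 := by
  have hi : ∀ a c : ℝ, IntervalIntegrable (kk σ) volume a c := fun a c =>
    (kk_cont σ).intervalIntegrable _ _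
  have hπ := Real.pi_pos
  rw [← intervalIntegral.integral_add_adjacent_intervals (hi (-π) (-(π / 2))) (hi _ π),
    ← intervalIntegral.integral_add_adjacent_intervals (hi (-(π / 2)) (π / 2)) (hi _ π)]
  have h1 : ∫ θ in (-π)..(-(π / 2)), kk σ θ = 0 := by
    rw [intervalIntegral.integral_congr (g := fun _ => (0 : ℝ))]
    · simp
    · intro θ hθ
      rw [uIcc_of_le (by linarith)] at hθ
      have h2 : Real.cos θ ≤ 0 := by
        rw [← Real.cos_neg]
        exact Real.cos_nonpos_of_pi_div_two_le_of_le (by linarith [hθ.2]) (by linarith [hθ.1])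
      simp only [kk]
      rw [max_eq_left h2]
      simp
  have h3 : ∫ θ in (π / 2)..π, kk σ θ = 0 := by
    rw [intervalIntegral.integral_congr (g := fun _ => (0 : ℝ))]
    · simp
    · intro θ hθ
      rw [uIcc_of_le (by linarith)] at hθ
      have h2 : Real.cos θ ≤ 0 :=
        Real.cos_nonpos_of_pi_div_two_le_of_le hθ.1 (by linarith [hθ.2])
      simp only [kk]
      rw [max_eq_left h2]
      simp
  have h2 : ∫ θ in (-(π / 2))..(π / 2), kk σ θ = 2 := by
    have h4 : ∫ θ in (-(π / 2))..(π / 2), kk σ θ =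
        ∫ θ in (-(π / 2))..(π / 2), chi' (Real.sin θ / σ) * (Real.cos θ / σ) := by
      refine intervalIntegral.integral_congr fun θ hθ => ?_
      rw [uIcc_of_le (by linarith)] at hθ
      have h5 : 0 ≤ Real.cos θ := Real.cos_nonneg_of_neg_pi_div_two_le_of_le hθ.1 hθ.2
      simp only [kk]
      rw [max_eq_right h5]
      ring
    rw [h4, intervalIntegral.integral_eq_sub_of_hasDerivAt
      (f := fun θ => chi (Real.sin θ / σ))]
    · have e1 : Real.sin (-(π / 2)) = -1 := by rw [Real.sin_neg, Real.sin_pi_div_two]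
      have h6 : 1 ≤ 1 / σ := by rw [le_div_iff₀ hσ]; linarith
      rw [e1, Real.sin_pi_div_two, neg_div, chi_neg, chi_one h6]
      norm_num
    · intro θ _
      exact (chi_deriv _).comp θ ((Real.hasDerivAt_sin θ).div_const σ)
    · have := chi'_cont
      exact Continuous.intervalIntegrable (by fun_prop) _ _
  rw [h1, h2, h3]
  norm_num

lemma kk_nonneg {σ : ℝ} (hσ : 0 < σ) (θ : ℝ) : 0 ≤ kk σ θ := by
  unfold kk
  have := chi'_nonneg (Real.sin θ / σ)
  positivity

lemma polar_int (b : ℕ) {σ r₀ R₁ : ℝ} (hσ : 0 < σ) (hσ1 : σ ≤ 1) (hr₀ : 0 < r₀) (hr : r₀ ≤ R₁)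
    (hR₁ : R₁ < 1) :
    ∫⁻ z : ℂ, ENNReal.ofReal ({z : ℂ | r₀ < ‖z‖ ∧ ‖z‖ < R₁}.indicator (fun z =>
      chi' (z.im / (σ * ‖z‖)) * max 0 z.re / (σ * ‖z‖ ^ 2) * (1 - ‖z‖) ^ b) z) =
      ENNReal.ofReal ((∫ ρ in r₀..R₁, (1 - ρ) ^ b) * 2) := by
  rw [← Complex.lintegral_comp_polarCoord_symm, polarCoord_target]
  have h1 : ∀ p ∈ Ioi (0 : ℝ) ×ˢ Ioo (-π) π, ENNReal.ofReal p.1 •
      ENNReal.ofReal ({z : ℂ | r₀ < ‖z‖ ∧ ‖z‖ < R₁}.indicator (fun z =>
        chi' (z.im / (σ * ‖z‖)) * max 0 z.re / (σ * ‖z‖ ^ 2) * (1 - ‖z‖) ^ b)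
          (Complex.polarCoord.symm p)) =
      (Ioo r₀ R₁).indicator (fun ρ => ENNReal.ofReal ((1 - ρ) ^ b)) p.1 *
        ENNReal.ofReal (kk σ p.2) := by
    intro p hp
    have hp1 : 0 < p.1 := hp.1
    have hn : ‖(p.1 : ℂ) * ee p.2‖ = p.1 := by
      rw [norm_mul, ee_norm, mul_one, Complex.norm_real, Real.norm_of_nonneg hp1.le]
    rw [symm_eq]
    by_cases h : p.1 ∈ Ioo r₀ R₁
    · rw [indicator_of_mem h, indicator_of_mem (show (p.1 : ℂ) * ee p.2 ∈
        {z : ℂ | r₀ < ‖z‖ ∧ ‖z‖ < R₁} from by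
          change r₀ < ‖(p.1 : ℂ) * ee p.2‖ ∧ ‖(p.1 : ℂ) * ee p.2‖ < R₁
          rw [hn]
          exact h), hn, smul_eq_mul, ← ENNReal.ofReal_mul hp1.le,
        ← ENNReal.ofReal_mul (by
          have : 0 ≤ 1 - p.1 := by linarith [h.2]
          positivity)]
      congr 1
      have e1 : ((p.1 : ℂ) * ee p.2).im = p.1 * Real.sin p.2 := by
        rw [Complex.im_ofReal_mul]
        rfl
      have e2 : ((p.1 : ℂ) * ee p.2).re = p.1 * Real.cos p.2 := by
        rw [Complex.re_ofReal_mul]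
        rfl
      have e3 : max 0 (p.1 * Real.cos p.2) = p.1 * max 0 (Real.cos p.2) := by
        rw [mul_max_of_nonneg _ _ hp1.le, mul_zero]
      have e4 : p.1 * Real.sin p.2 / (σ * p.1) = Real.sin p.2 / σ := by
        field_simp
      rw [e1, e2, e3, e4]
      unfold kk
      field_simp
    · rw [indicator_of_notMem h, indicator_of_notMem (show (p.1 : ℂ) * ee p.2 ∉
        {z : ℂ | r₀ < ‖z‖ ∧ ‖z‖ < R₁} from fun h2 => h (by
          change r₀ < ‖(p.1 : ℂ) * ee p.2‖ ∧ ‖(p.1 : ℂ) * ee p.2‖ < R₁ at h2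
          rw [hn] at h2
          exact h2))]
      simp
  rw [setLIntegral_congr_fun (measurableSet_Ioi.prod measurableSet_Ioo) h1,
    Measure.volume_eq_prod, ← Measure.prod_restrict,
    lintegral_prod_mul (f := (Ioo r₀ R₁).indicator (fun ρ => ENNReal.ofReal ((1 - ρ) ^ b)))
      (g := fun θ => ENNReal.ofReal (kk σ θ))]
  · rw [ENNReal.ofReal_mul]
    · congr 1
      · rw [lintegral_indicator measurableSet_Ioo, Measure.restrict_restrict measurableSet_Ioo,
          inter_eq_left.2 (show Ioo r₀ R₁ ⊆ Ioi 0 from fun x hx => hr₀.trans hx.1),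
          intervalIntegral.integral_of_le hr,
          integral_Ioc_eq_integral_Ioo, ofReal_integral_eq_lintegral_ofReal]
        · have hc : Continuous fun ρ : ℝ => (1 - ρ) ^ b := by fun_prop
          exact (hc.continuousOn.integrableOn_compact isCompact_Icc).mono_set Ioo_subset_Icc_self
        · rw [EventuallyLE, ae_restrict_iff' measurableSet_Ioo]
          refine ae_of_all _ fun x hx => ?_
          have : 0 ≤ 1 - x := by linarith [hx.2]
          simp only [Pi.zero_apply]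
          positivity
      · rw [← kk_int hσ hσ1, intervalIntegral.integral_of_le (by linarith [Real.pi_pos]),
          integral_Ioc_eq_integral_Ioo, ofReal_integral_eq_lintegral_ofReal]
        · exact ((kk_cont σ).continuousOn.integrableOn_compact isCompact_Icc).mono_set
            Ioo_subset_Icc_self
        · exact ae_of_all _ fun θ => kk_nonneg hσ θ
    · refine intervalIntegral.integral_nonneg hr fun x hx => ?_
      have : 0 ≤ 1 - x := by linarith [hx.2]
      positivity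
  · refine (Measurable.indicator ?_ measurableSet_Ioo).aemeasurable
    fun_prop
  · exact ((kk_cont σ).measurable.ennreal_ofReal).aemeasurable

lemma lint_dd {b : ℕ} {ε : ℝ} (hε : 0 < ε) {u : ℂ} (hu : ‖u‖ = 1) {σ r₀ R₁ : ℝ} (hσ : 0 < σ)
    (hσ1 : σ ≤ 1) (hr₀ : 0 < r₀) (hr : r₀ ≤ R₁) (hR₁ : R₁ < 1) :
    ∫⁻ p in Om b ε, ENNReal.ofReal (dd u σ r₀ R₁ 1 (xc p)) =
      ENNReal.ofReal (vb b ε * (2 * ∫ ρ in r₀..R₁, (1 - ρ) ^ b)) := by
  rw [t7a hε (f := fun x => ENNReal.ofReal (dd u σ r₀ R₁ 1 x))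
    (measurable_dd u σ r₀ R₁ 1).ennreal_ofReal, ENNReal.ofReal_mul (vb_pos hε).le,
    mul_comm 2, ← polar_int b hσ hσ1 hr₀ hr hR₁]
  congr 1
  obtain ⟨L, hL⟩ : ∃ L : ℂ ≃ₗᵢ[ℝ] ℂ, ∀ z, L z = u * z := by
    refine ⟨rotation ⟨u, ?_⟩, fun z => ?_⟩
    · rw [Submonoid.unitSphere]
      simp [hu]
    · rw [rotation_apply]
  rw [← (L.measurePreserving).lintegral_comp_emb L.toHomeomorph.measurableEmbedding,
    ← lintegral_indicator measurableSet_ball]
  refine lintegral_congr fun x => ?_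
  have hn : ‖L x‖ = ‖x‖ := L.norm_map x
  by_cases hx : x ∈ ball (0 : ℂ) 1
  · rw [indicator_of_mem hx]
    rw [mem_ball_zero_iff] at hx
    have h1x : 0 ≤ 1 - ‖x‖ := by linarith
    rw [← ENNReal.ofReal_mul (dd_nonneg hσ x)]
    congr 1
    unfold dd
    by_cases h : r₀ < ‖x‖ ∧ ‖x‖ < R₁
    · rw [indicator_of_mem (show x ∈ {x : ℂ | r₀ < ‖x‖ ∧ ‖x‖ < R₁} from h),
        indicator_of_mem (show L x ∈ {x : ℂ | r₀ < ‖x‖ ∧ ‖x‖ < R₁} from by
          change r₀ < ‖L x‖ ∧ ‖L x‖ < R₁
          rw [hn]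
          exact h), hn, hL, mul_comm u x, one_mul]
    · rw [indicator_of_notMem (show x ∉ {x : ℂ | r₀ < ‖x‖ ∧ ‖x‖ < R₁} from h),
        indicator_of_notMem (show L x ∉ {x : ℂ | r₀ < ‖x‖ ∧ ‖x‖ < R₁} from fun h2 => h (by
          change r₀ < ‖L x‖ ∧ ‖L x‖ < R₁ at h2
          rw [hn] at h2
          exact h2)), zero_mul]
  · rw [indicator_of_notMem hx, indicator_of_notMem, ENNReal.ofReal_zero]
    rw [mem_ball_zero_iff, not_lt] at hx
    rintro ⟨-, h⟩
    rw [hn] at h
    linarith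

end Run7.h717.HV
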